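import Pool.Agent.W231.V.Core

set_option autoImplicit false

/-!
The main estimate.
-/

namespace Pool.Agent.W231.V

open NumberField IsDedekindDomain Height Finset

variable {K : Type*} [Field K] [NumberField K]

/-- a nonzero polynomial does not vanish at `2 ^ m`, `m` large -/
lemma eventually_ne {F : Type*} [Field F] [CharZero F] (P : Polynomial F) (hP : P ≠ 0) :
    ∀ᶠ m : ℕ in Filter.atTop, P.eval ((2 ^ m : ℕ) : F) ≠ 0 := by
  rw [← Nat.cofinite_eq_atTop, Filter.eventually_cofinite]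
  have h1 : {m : ℕ | ¬ P.eval ((2 ^ m : ℕ) : F) ≠ 0} =
      (fun m : ℕ => ((2 ^ m : ℕ) : F)) ⁻¹' {x | P.IsRoot x} := by
    ext m
    simp [Polynomial.IsRoot]
  rw [h1]
  refine Set.Finite.preimage (fun m _ m' _ h => ?_) (Polynomial.finite_setOfPred_isRoot hP)
  have h2 : 2 ^ m = 2 ^ m' := by exact_mod_cast h
  exact Nat.pow_right_injective le_rfl h2

theorem core {n : ℕ} (hn : 2 ≤ n) {ι : Type*} [Fintype ι] (L : ι → Fin (n + 1) → K)
    (hgp : ∀ I : Finset ι, I.card = n + 1 → LinearIndependent K (fun i : I => L i))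
    (hr : n + 2 ≤ Fintype.card ι) {Ω : Type*} [Field Ω] [Algebra K Ω]
    (G : MvPolynomial (Fin (n + 1)) Ω) (hG : G ≠ 0) {δ : ℕ} (hGδ : G.IsHomogeneous δ) (B : ℕ)
    (hB : δ < ∑ b ∈ Finset.Icc 2 B, b * b.totient) {ε : ℝ} (hε : ε * B < 1) (C : ℝ) :
    ∃ x : Fin (n + 1) → K, MvPolynomial.eval (fun j => algebraMap K Ω (x j)) G ≠ 0 ∧
      (∀ i, ∑ j, L i j * x j ≠ 0) ∧
      {v : HeightOneSpectrum (𝓞 K) | ∃ i, fv v (∑ j, L i j * x j) <
        (⨆ j, fv v (L i j)) * ⨆ j, fv v (x j)}.Finite ∧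
      ∀ T : Finset (HeightOneSpectrum (𝓞 K)), (∀ v ∈ T, ∃ i,
        fv v (∑ j, L i j * x j) < (⨆ j, fv v (L i j)) * ⨆ j, fv v (x j)) →
        ∑ v ∈ T, ell v + ε * logHeight x + C ≤ (Fintype.card ι - n - 1 : ℝ) * logHeight x := by
  classical
  have : CharZero Ω := charZero_of_injective_algebraMap (algebraMap K Ω).injective
  obtain ⟨A0, A1, A2, s, y1, y2, I, O, i0, i2, i3, hs, hp, hcov, hI, h3, h0, h2, hO, hcard⟩ :=
    exists_plane hn L hgp hr G hG
  obtain ⟨a, b, ha, hab, hbB, hcurve⟩ := exists_curve G hGδ (fun j => algebraMap K Ω (A0 j))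
    (fun j => algebraMap K Ω (A1 j)) (fun j => algebraMap K Ω (A2 j)) (algebraMap K Ω s)
    (algebraMap K Ω y1) (algebraMap K Ω y2) ((map_ne_zero _).2 hs)
    (by simpa only [map_add, map_mul] using hp) B hB
  obtain ⟨C0, hC0⟩ := arith L A0 A1 A2 I O i3 hcov hI h3 ha hab
  have hbaK : (b : K) - a ≠ 0 := by
    intro h
    rw [sub_eq_zero] at h
    have h2 : b = a := by exact_mod_cast h
    omega
  have hbK : (b : K) ≠ 0 := Nat.cast_ne_zero.2 (by omega)
  have haK : (a : K) ≠ 0 := Nat.cast_ne_zero.2 (by omega)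
  have hc0 : ((b : K) - a) * ∑ j, L i0 j * A0 j ≠ 0 := mul_ne_zero hbaK h0.1
  have hc2 : (a : K) * ∑ j, L i2 j * A2 j ≠ 0 := mul_ne_zero haK h2.2.2
  obtain ⟨C1, hC1⟩ := logHeight_ge
    (fun j => (((b : K) - a) * ∑ j, L i0 j * A0 j)⁻¹ * L i0 j)
    (fun j => ((a : K) * ∑ j, L i2 j * A2 j)⁻¹ * L i2 j)
  -- the choice of the parameter
  have hev1 : ∀ᶠ m : ℕ in Filter.atTop, (onCurve (fun j => algebraMap K Ω (A0 j))
    (fun j => algebraMap K Ω (A1 j)) (fun j => algebraMap K Ω (A2 j)) a b G).eval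
      ((2 ^ m : ℕ) : Ω) ≠ 0 := eventually_ne _ hcurve
  have hev2 : ∀ᶠ m : ℕ in Filter.atTop, ∀ i ∈ O,
      ∑ j, L i j * pt A0 A1 A2 a b (2 ^ m) j ≠ 0 := by
    rw [Filter.eventually_all_finset]
    intro i hi
    set P : Polynomial K := Polynomial.C (((b : K) - a) * ∑ j, L i j * A0 j) +
      Polynomial.C (-b * ∑ j, L i j * A1 j) * Polynomial.X ^ a +
      Polynomial.C (a * ∑ j, L i j * A2 j) * Polynomial.X ^ b with hP
    have hP0 : P ≠ 0 := by
      intro h
      have h1 := congrArg (fun q => q.coeff a) h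
      simp only [hP, Polynomial.coeff_add, Polynomial.coeff_C_mul, Polynomial.coeff_X_pow,
        Polynomial.coeff_C, Polynomial.coeff_zero, if_neg (by omega : ¬ a = 0),
        if_neg (by omega : ¬ a = b)] at h1
      simp only [zero_add, if_true, mul_one, mul_zero, add_zero] at h1
      exact mul_ne_zero (neg_ne_zero.2 hbK) (hO i hi) h1
    filter_upwards [eventually_ne P hP0] with m hm
    rw [form_pt]
    rw [hP] at hm
    simp only [Polynomial.eval_add, Polynomial.eval_mul, Polynomial.eval_C, Polynomial.eval_pow,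
      Polynomial.eval_X] at hm
    exact hm
  have hlog2 : 0 < Real.log 2 := Real.log_pos (by norm_num)
  have hdeg : (0 : ℝ) < (totalWeight K : ℝ) := by exact_mod_cast totalWeight_pos K
  set R : ℝ := (O.card : ℝ) + 1 with hR
  have hRcard : (Fintype.card ι - n - 1 : ℝ) = R := by
    rw [← hcard, hR]; push_cast; ring
  have hB2 : 2 ≤ B := by omega
  have hεb : ε * b < 1 := by
    rcases le_total ε 0 with h | h
    · have : ε * b ≤ 0 := mul_nonpos_of_nonpos_of_nonneg h (Nat.cast_nonneg b)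
      linarith
    · have : (b : ℝ) ≤ B := by exact_mod_cast hbB
      nlinarith
  have hε1 : ε ≤ 1 := by
    have : (2 : ℝ) ≤ B := by exact_mod_cast hB2
    nlinarith
  have hRε : 0 ≤ R - ε := by
    have : (0 : ℝ) ≤ O.card := Nat.cast_nonneg _
    linarith
  have hev3 : ∀ᶠ m : ℕ in Filter.atTop, C0 + C + (R - ε) * C1 ≤
      ((totalWeight K : ℝ) * (Real.log 2) * (1 - ε * b)) * m := by
    have hpos : 0 < (totalWeight K : ℝ) * (Real.log 2) * (1 - ε * b) :=
      mul_pos (mul_pos hdeg hlog2) (by linarith)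
    exact (tendsto_natCast_atTop_atTop.const_mul_atTop hpos).eventually_ge_atTop _
  have hev4 : ∀ᶠ m : ℕ in Filter.atTop, b ≤ 2 ^ m := by
    filter_upwards [Filter.eventually_ge_atTop b] with m hm
    exact hm.trans (Nat.lt_two_pow_self).le
  obtain ⟨m, hm1, hm2, hm3, hm4⟩ := (hev1.and (hev2.and (hev3.and hev4))).exists
  set t : ℕ := 2 ^ m with ht
  have ht1 : 1 ≤ t := Nat.one_le_two_pow
  have htK : (t : K) ≠ 0 := Nat.cast_ne_zero.2 (by omega)
  obtain ⟨hfin, hsum⟩ := hC0 m t ht hm4 hm2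
  refine ⟨pt A0 A1 A2 a b t, ?_, ?_, hfin, fun T hT => ?_⟩
  · have : MvPolynomial.eval (fun j => algebraMap K Ω (pt A0 A1 A2 a b t j)) G =
        (onCurve (fun j => algebraMap K Ω (A0 j)) (fun j => algebraMap K Ω (A1 j))
          (fun j => algebraMap K Ω (A2 j)) a b G).eval (t : Ω) := by
      have e1 : (onCurve (fun j => algebraMap K Ω (A0 j)) (fun j => algebraMap K Ω (A1 j))
          (fun j => algebraMap K Ω (A2 j)) a b G).eval (t : Ω) = Polynomial.evalRingHom (t : Ω)
          (onCurve (fun j => algebraMap K Ω (A0 j)) (fun j => algebraMap K Ω (A1 j))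
          (fun j => algebraMap K Ω (A2 j)) a b G) := rfl
      rw [e1, onCurve, MvPolynomial.hom_eval₂]
      have e2 : (Polynomial.evalRingHom (t : Ω)).comp Polynomial.C = RingHom.id Ω := by
        ext c; simp
      rw [e2]
      change MvPolynomial.eval₂ (RingHom.id Ω) _ G = _
      congr 1
      funext j
      simp [pt]
    rw [this]
    exact hm1
  · intro i
    rcases hcov i with hi | rfl | hi
    · rw [form_pt]
      rcases hI i hi with ⟨p0, p1, p2⟩ | ⟨p0, p1, p2⟩ | ⟨p0, p1, p2⟩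
      · rw [p1, p2]
        simpa using ⟨hbaK, p0⟩
      · rw [p0, p2]
        have : -(b : K) * (∑ j, L i j * A1 j) * (t : K) ^ a ≠ 0 :=
          mul_ne_zero (mul_ne_zero (neg_ne_zero.2 hbK) p1) (pow_ne_zero _ htK)
        simpa only [mul_zero, zero_mul, zero_add, add_zero] using this
      · rw [p0, p1]
        have : (a : K) * (∑ j, L i j * A2 j) * (t : K) ^ b ≠ 0 :=
          mul_ne_zero (mul_ne_zero haK p2) (pow_ne_zero _ htK)
        simpa only [mul_zero, zero_mul, zero_add, add_zero] using this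
    · obtain ⟨g, hg1, hgeq, -⟩ := intF ha hab hm4
      have hL3 : ∑ j, L i j * pt A0 A1 A2 a b t j = ((t - 1 : ℕ) : K) ^ 2 * (g : K) := by
        rw [form_pt, h3.1, h3.2.1, h3.2.2]
        have := congrArg (Int.cast : ℤ → K) hgeq
        push_cast at this
        rw [← this]
        ring
      rw [hL3]
      exact mul_ne_zero (pow_ne_zero _ (Nat.cast_ne_zero.2 (by omega)))
        (Nat.cast_ne_zero.2 (by omega))
    · exact hm2 i hi
  · have e1 := hsum T hT
    have e2 := hC1 (pt A0 A1 A2 a b t) b t ht1 (by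
      have : ∀ j, (((b : K) - a) * ∑ j, L i0 j * A0 j)⁻¹ * L i0 j * pt A0 A1 A2 a b t j =
        (((b : K) - a) * ∑ j, L i0 j * A0 j)⁻¹ * (L i0 j * pt A0 A1 A2 a b t j) := fun j => by ring
      rw [Finset.sum_congr rfl fun j _ => this j, ← Finset.mul_sum, form_pt, h0.2.1, h0.2.2]
      rw [mul_zero, zero_mul, add_zero, mul_zero, zero_mul, add_zero]
      exact inv_mul_cancel₀ hc0) (by
      have : ∀ j, ((a : K) * ∑ j, L i2 j * A2 j)⁻¹ * L i2 j * pt A0 A1 A2 a b t j =
        ((a : K) * ∑ j, L i2 j * A2 j)⁻¹ * (L i2 j * pt A0 A1 A2 a b t j) := fun j => by ring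
      rw [Finset.sum_congr rfl fun j _ => this j, ← Finset.mul_sum, form_pt, h2.1, h2.2.1]
      rw [mul_zero, mul_zero, zero_mul, add_zero, zero_add, ← mul_assoc, inv_mul_cancel₀ hc2,
        one_mul])
    have elog : Real.log t = m * Real.log 2 := by
      rw [ht]; push_cast; rw [Real.log_pow]
    rw [hRcard]
    set h := logHeight (pt A0 A1 A2 a b t) with hh
    set D : ℝ := (totalWeight K : ℝ) with hD
    have e3 : (R - ε) * (D * (b * Real.log t)) ≤ (R - ε) * (h + C1) :=
      mul_le_mul_of_nonneg_left e2 hRε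
    have e4 : D * Real.log 2 * (1 - ε * b) * m = D * Real.log t * (1 - ε * b) := by
      rw [elog]; ring
    rw [e4] at hm3
    have e5 : D * Real.log t * (O.card * b + b - 1) = R * (D * (b * Real.log t)) - D * Real.log t := by
      rw [hR]; ring
    rw [e5] at e1
    nlinarith

end Pool.Agent.W231.V
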