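import Pool.Agent.W231.V.Main2

set_option autoImplicit false

/-!
Quadratic points close to hyperplanes: the main estimate.
-/

namespace Pool.Agent.W231.V

open NumberField IsDedekindDomain Height Finset Polynomial

/-- clearing denominators -/
lemma clear {κ : Type*} [Finite κ] (f : κ → ℚ) :
    ∃ (N : ℤ) (g : κ → ℤ), N ≠ 0 ∧ ∀ i, (g i : ℚ) = N * f i := by
  obtain ⟨b, hb⟩ := IsLocalization.exist_integer_multiples_of_finite (nonZeroDivisors ℤ) f
  choose g hg using hb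
  refine ⟨b, g, nonZeroDivisors.coe_ne_zero b, fun i => ?_⟩
  have := hg i
  simp only [eq_intCast, zsmul_eq_mul] at this
  exact this

lemma LamSup_smul {L : Type*} [Field L] [NumberField L] {σ : Type*} [Finite σ]
    (U : Finset (HeightOneSpectrum (𝓞 L))) {c : L} (hc : c ≠ 0) {l : σ → L} (hl : l ≠ 0) :
    LamSup U (fun j => c * l j) = Lam U c + LamSup U l := by
  obtain ⟨j, hj⟩ := Function.ne_iff.1 hl
  have hj' : l j ≠ 0 := hj
  unfold LamSup Lam
  have h1 : ∀ w : InfinitePlace L, (w.mult : ℝ) * Real.log (⨆ j, w (c * l j)) =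
      w.mult * Real.log (w c) + w.mult * Real.log (⨆ j, w (l j)) := by
    intro w
    have hpos : 0 < ⨆ j, w (l j) := (w.pos_iff.2 hj').trans_le
      (le_ciSup (f := fun j => w (l j)) (Set.finite_range _).bddAbove j)
    simp only [map_mul]
    rw [← Real.mul_iSup_of_nonneg (apply_nonneg w c), Real.log_mul (w.pos_iff.2 hc).ne' hpos.ne']
    ring
  have h2 : ∀ v ∈ U, Real.log (⨆ j, fv v (c * l j)) =
      Real.log (fv v c) + Real.log (⨆ j, fv v (l j)) := by
    intro v _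
    have hpos : 0 < ⨆ j, fv v (l j) := ((fv v).pos_iff.2 hj').trans_le
      (le_ciSup (f := fun j => fv v (l j)) (Set.finite_range _).bddAbove j)
    simp only [map_mul]
    rw [← Real.mul_iSup_of_nonneg ((fv v).nonneg c), Real.log_mul ((fv v).pos_iff.2 hc).ne' hpos.ne']
  rw [sum_congr rfl fun w _ => h1 w, sum_congr rfl h2, sum_add_distrib, sum_add_distrib]
  ring

lemma Pol_ne_zero {a b : ℕ} (ha : 1 ≤ a) (hab : a < b) {s0 s1 s2 : ℤ}
    (h : ¬ (s0 = 0 ∧ s1 = 0 ∧ s2 = 0)) : Pol a b s0 s1 s2 ≠ 0 := by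
  intro h0
  apply h
  have c0 := congrArg (fun P => P.coeff 0) h0
  have c1 := congrArg (fun P => P.coeff a) h0
  have c2 := congrArg (fun P => P.coeff b) h0
  simp only [Pol, coeff_add, coeff_sub, coeff_C_mul, coeff_X_pow, coeff_C, coeff_zero,
    if_neg (by omega : ¬ a = 0), if_neg (by omega : ¬ b = 0), if_neg (by omega : ¬ 0 = a),
    if_neg (by omega : ¬ 0 = b), if_neg (by omega : ¬ a = b), if_neg (by omega : ¬ b = a),
    if_true, mul_zero, mul_one, sub_zero, add_zero, zero_sub, zero_add, neg_eq_zero] at c0 c1 c2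
  refine ⟨?_, ?_, ?_⟩
  · exact (mul_eq_zero.1 c0).resolve_left (by omega)
  · exact (mul_eq_zero.1 c1).resolve_left (by omega)
  · exact (mul_eq_zero.1 c2).resolve_left (by omega)

/-- a general form of the choice of the parameter -/
lemma eventually_prime_pow {p : ℕ} (hp : p.Prime) (u0 : ℕ) :
    ∀ᶠ m : ℕ in Filter.atTop, u0 ≤ p ^ m := by
  filter_upwards [Filter.eventually_ge_atTop u0] with m hm
  exact hm.trans (Nat.lt_pow_self hp.one_lt).le

theorem core2 {n : ℕ} (hn : 2 ≤ n) {ι : Type*} [Fintype ι] (H : ι → Fin (n + 1) → ℚ)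
    (hgp : ∀ I : Finset ι, I.card = n + 1 → LinearIndependent ℚ (fun i : I => H i))
    (hr : n + 2 ≤ Fintype.card ι) (G : MvPolynomial (Fin (n + 1)) ℚ) (hG : G ≠ 0) {δ : ℕ}
    (hGδ : G.IsHomogeneous δ) (B : ℕ) (hB : δ < ∑ b ∈ Finset.Icc 2 B, b * b.totient) {ε : ℝ}
    (hε : ε * B < 1) (C : ℝ) {p : ℕ} (hp : p.Prime) :
    ∃ (L : Type) (_ : Field L) (_ : NumberField L) (x : Fin (n + 1) → L),
      Module.finrank ℚ L = 2 ∧
      (∃ i j, x j ≠ 0 ∧ x i / x j ∉ Set.range (algebraMap ℚ L)) ∧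
      (∀ i, ∑ j, algebraMap ℚ L (H i j) * x j ≠ 0) ∧
      MvPolynomial.aeval x G ≠ 0 ∧
      ∀ U : Finset (HeightOneSpectrum (𝓞 L)), (∀ v, v ∉ U → fv v (p : L) = 1) →
        (n + 1 : ℝ) * logHeight x + ε * logHeight x + Real.log |((NumberField.discr L : ℤ) : ℝ)| +
          C < ∑ i, (LamSup U (fun j => algebraMap ℚ L (H i j)) + LamSup U x -
            Lam U (∑ j, algebraMap ℚ L (H i j) * x j)) := by
  classical
  obtain ⟨A0, A1, A2, s, y1, y2, I, O, i0, i2, i3, hs, hpl, hcov, hI, h3, h0, h2, hO, hcard⟩ :=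
    exists_plane hn H hgp hr G hG
  -- clearing denominators
  obtain ⟨N, H', hN, hH'⟩ := clear (fun z : ι × Fin (n + 1) => H z.1 z.2)
  obtain ⟨N', A', hN', hA'⟩ := clear (fun z : Fin 3 × Fin (n + 1) => ![A0, A1, A2] z.1 z.2)
  set Z : ι → Fin (n + 1) → ℤ := fun i j => H' (i, j) with hZ
  set B0 : Fin (n + 1) → ℤ := fun j => A' (0, j) with hB0
  set B1 : Fin (n + 1) → ℤ := fun j => A' (1, j) with hB1
  set B2 : Fin (n + 1) → ℤ := fun j => A' (2, j) with hB2
  have hZc : ∀ i j, (Z i j : ℚ) = N * H i j := fun i j => hH' (i, j)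
  have hB0c : ∀ j, (B0 j : ℚ) = N' * A0 j := fun j => hA' (0, j)
  have hB1c : ∀ j, (B1 j : ℚ) = N' * A1 j := fun j => hA' (1, j)
  have hB2c : ∀ j, (B2 j : ℚ) = N' * A2 j := fun j => hA' (2, j)
  have hNN : ((N * N' : ℤ) : ℚ) ≠ 0 := Int.cast_ne_zero.2 (mul_ne_zero hN hN')
  have hsum : ∀ (i : ι) (E : Fin (n + 1) → ℤ) (A : Fin (n + 1) → ℚ),
      (∀ j, (E j : ℚ) = N' * A j) →
      ((∑ j, Z i j * E j : ℤ) : ℚ) = (N * N' : ℤ) * ∑ j, H i j * A j := by
    intro i E A hE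
    rw [Finset.mul_sum]
    push_cast
    refine Finset.sum_congr rfl fun j _ => ?_
    rw [hZc, hE]
    ring
  have hiff0 : ∀ (i : ι) (E : Fin (n + 1) → ℤ) (A : Fin (n + 1) → ℚ),
      (∀ j, (E j : ℚ) = N' * A j) → ((∑ j, Z i j * E j = 0) ↔ ∑ j, H i j * A j = 0) := by
    intro i E A hE
    have h := hsum i E A hE
    constructor
    · intro h1
      rw [h1, Int.cast_zero] at h
      exact (mul_eq_zero.1 h.symm).resolve_left hNN
    · intro h1
      rw [h1, mul_zero] at h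
      exact_mod_cast h
  have g0 := fun i => hiff0 i B0 A0 hB0c
  have g1 := fun i => hiff0 i B1 A1 hB1c
  have g2 := fun i => hiff0 i B2 A2 hB2c
  have hone : ∀ (i : ι) (E : Fin (n + 1) → ℤ) (A : Fin (n + 1) → ℚ),
      (∀ j, (E j : ℚ) = N' * A j) → ∑ j, H i j * A j = 1 → ∑ j, Z i j * E j = N * N' := by
    intro i E A hE h1
    have h := hsum i E A hE
    rw [h1, mul_one] at h
    exact_mod_cast h
  have hI' : ∀ i ∈ I,
      (∑ j, Z i j * B0 j ≠ 0 ∧ ∑ j, Z i j * B1 j = 0 ∧ ∑ j, Z i j * B2 j = 0) ∨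
      (∑ j, Z i j * B0 j = 0 ∧ ∑ j, Z i j * B1 j ≠ 0 ∧ ∑ j, Z i j * B2 j = 0) ∨
      (∑ j, Z i j * B0 j = 0 ∧ ∑ j, Z i j * B1 j = 0 ∧ ∑ j, Z i j * B2 j ≠ 0) := by
    intro i hi
    have := hI i hi
    simpa only [Ne, g0 i, g1 i, g2 i] using this
  have h3' : ∑ j, Z i3 j * B0 j = N * N' ∧ ∑ j, Z i3 j * B1 j = N * N' ∧
      ∑ j, Z i3 j * B2 j = N * N' :=
    ⟨hone i3 B0 A0 hB0c h3.1, hone i3 B1 A1 hB1c h3.2.1, hone i3 B2 A2 hB2c h3.2.2⟩
  have h0' : ∑ j, Z i0 j * B0 j ≠ 0 ∧ ∑ j, Z i0 j * B1 j = 0 ∧ ∑ j, Z i0 j * B2 j = 0 := by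
    simpa only [Ne, g0 i0, g1 i0, g2 i0] using h0
  have h2' : ∑ j, Z i2 j * B0 j = 0 ∧ ∑ j, Z i2 j * B1 j = 0 ∧ ∑ j, Z i2 j * B2 j ≠ 0 := by
    simpa only [Ne, g0 i2, g1 i2, g2 i2] using h2
  have hne3 : ∀ i, ¬ (∑ j, Z i j * B0 j = 0 ∧ ∑ j, Z i j * B1 j = 0 ∧ ∑ j, Z i j * B2 j = 0) := by
    rintro i ⟨e0, e1, e2⟩
    rcases hcov i with hi | rfl | hi
    · rcases hI' i hi with h | h | h
      · exact h.1 e0
      · exact h.2.1 e1
      · exact h.2.2 e2
    · rw [h3'.1] at e0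
      exact mul_ne_zero hN hN' e0
    · exact hO i hi ((g1 i).1 e1)
  have hHne : ∀ i, ∃ j, Z i j ≠ 0 := by
    intro i
    by_contra hcon
    push Not at hcon
    refine hne3 i ⟨?_, ?_, ?_⟩ <;> exact Finset.sum_eq_zero fun j _ => by rw [hcon, zero_mul]
  obtain ⟨a, b, ha, hab, hbB, hcurve⟩ := exists_curve G hGδ (fun j => (B0 j : ℚ))
    (fun j => (B1 j : ℚ)) (fun j => (B2 j : ℚ)) (s / N')
    (y1 / N') (y2 / N') (div_ne_zero hs (Int.cast_ne_zero.2 hN'))
    (by
      have hN'Q : (N' : ℚ) ≠ 0 := Int.cast_ne_zero.2 hN'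
      have e : (fun j => s / N' * (B0 j : ℚ) + y1 / N' * (B1 j : ℚ) + y2 / N' * (B2 j : ℚ)) =
          fun j => algebraMap ℚ ℚ (s * A0 j + y1 * A1 j + y2 * A2 j) := by
        funext j
        rw [hB0c, hB1c, hB2c, Algebra.algebraMap_self, RingHom.id_apply]
        field_simp
      rw [e]
      exact hpl) B hB
  obtain ⟨K, hK⟩ := arith2 Z hHne B0 B1 B2 I O i0 i2 i3 (N * N') (mul_ne_zero hN hN') hcov hI' h3'
    h0' h2' ha hab
  -- the choice of the parameter
  obtain ⟨u1, hu1⟩ := eventually_ne_quad _ hcurve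
  have hpolQ : ∀ i, ((Pol a b (∑ j, Z i j * B0 j) (∑ j, Z i j * B1 j)
      (∑ j, Z i j * B2 j)).map (algebraMap ℤ ℚ)) ≠ 0 := by
    intro i
    exact (Polynomial.map_ne_zero_iff (algebraMap ℤ ℚ).injective_int).2
      (Pol_ne_zero ha hab (hne3 i))
  choose u2 hu2 using fun i => eventually_ne_quad _ (hpolQ i)
  set R : ℝ := (O.card : ℝ) + 1 with hR
  have hbR : (0 : ℝ) ≤ b := Nat.cast_nonneg _
  have hB2' : 2 ≤ B := by omega
  have hεb : ε * b < 1 := by
    rcases le_total ε 0 with h | h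
    · have : ε * b ≤ 0 := mul_nonpos_of_nonpos_of_nonneg h (Nat.cast_nonneg b)
      linarith
    · have : (b : ℝ) ≤ B := by exact_mod_cast hbB
      nlinarith
  have hε1 : ε ≤ 1 := by
    have : (2 : ℝ) ≤ B := by exact_mod_cast hB2'
    nlinarith
  have hRε : 0 ≤ R - ε := by
    have : (0 : ℝ) ≤ O.card := Nat.cast_nonneg _
    linarith
  have hlogp : 0 < Real.log p := Real.log_pos (by exact_mod_cast hp.one_lt)
  have hev3 : ∀ᶠ m : ℕ in Filter.atTop, 2 * K + (R - ε) * (2 * K) + C + 1 ≤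
      (2 * Real.log p * (1 - ε * b)) * m := by
    have hpos : 0 < 2 * Real.log p * (1 - ε * b) :=
      mul_pos (mul_pos two_pos hlogp) (by linarith)
    exact (tendsto_natCast_atTop_atTop.const_mul_atTop hpos).eventually_ge_atTop _
  have hev4 : ∀ᶠ m : ℕ in Filter.atTop, ∀ i ∈ (Finset.univ : Finset ι), u2 i ≤ p ^ m := by
    rw [Filter.eventually_all_finset]
    intro i _
    exact eventually_prime_pow hp _
  obtain ⟨m, hm1, hm2, hm3, hm4⟩ := ((eventually_prime_pow hp u1).and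
    ((eventually_prime_pow hp 3).and (hev3.and hev4))).exists
  set u : ℕ := p ^ m with hu
  obtain ⟨L, iF, iN, η, hfin, hη, hdisc, hint, -⟩ := exists_quad u hm2
  set t : L := (u : L) * η with ht
  have hη0 : η ≠ 0 := eta_ne hη
  have huL : (u : L) ≠ 0 := Nat.cast_ne_zero.2 (by omega)
  have ht0 : t ≠ 0 := mul_ne_zero huL hη0
  have h1t : 1 - t = -(η ^ 2) := by linear_combination hη
  have h1t0 : 1 - t ≠ 0 := by
    rw [h1t]
    exact neg_ne_zero.2 (pow_ne_zero _ hη0)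
  have htle : ∀ v, fv v t ≤ 1 := by
    intro v
    rw [ht, map_mul, fv_eta hη hint, mul_one]
    exact fv_nat v u
  have hunit : ∀ v, fv v (1 - t) = 1 := by
    intro v
    rw [h1t, map_neg_eq_map, map_pow, fv_eta hη hint, one_pow]
  have hne : ∀ i, ∑ j, (Z i j : L) * ptv (fun j => (B0 j : L)) (fun j => (B1 j : L))
        (fun j => (B2 j : L)) a b t j ≠ 0 := by
    intro i
    rw [form_ptv]
    have := hu2 i u (hm4 i (Finset.mem_univ i)) L η hη
    rwa [Polynomial.aeval_map_algebraMap] at this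
  set x : Fin (n + 1) → L := ptv (fun j => (B0 j : L)) (fun j => (B1 j : L))
        (fun j => (B2 j : L)) a b t with hx
  have hZL : ∀ i j, (Z i j : L) = (N : L) * algebraMap ℚ L (H i j) := by
    intro i j
    have h := congrArg (algebraMap ℚ L) (hZc i j)
    rw [map_mul, map_intCast, map_intCast] at h
    exact h
  have hNL : (N : L) ≠ 0 := Int.cast_ne_zero.2 hN
  have hform : ∀ i, ∑ j, (Z i j : L) * x j = (N : L) * ∑ j, algebraMap ℚ L (H i j) * x j := by
    intro i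
    rw [Finset.mul_sum]
    refine Finset.sum_congr rfl fun j _ => ?_
    rw [hZL]
    ring
  have hneQ : ∀ i, ∑ j, algebraMap ℚ L (H i j) * x j ≠ 0 := by
    intro i h
    have := hne i
    rw [hform, h, mul_zero] at this
    exact this rfl
  refine ⟨L, iF, iN, x, hfin, ?_, hneQ, ?_, ?_⟩
  · -- the point is not rational
    by_contra hcon
    push Not at hcon
    obtain ⟨j0, hj0⟩ : ∃ j, x j ≠ 0 := by
      by_contra hc
      push Not at hc
      exact hne i0 (Finset.sum_eq_zero fun j _ => by rw [hc, mul_zero])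
    choose ρ hρ using fun i => hcon i j0 hj0
    have hxi : ∀ i, x i = algebraMap ℚ L (ρ i) * x j0 := by
      intro i
      rw [hρ]
      field_simp
    have hval : ∀ i, ∑ j, (Z i j : L) * x j = algebraMap ℚ L (∑ j, (Z i j : ℚ) * ρ j) * x j0 := by
      intro i
      rw [map_sum, Finset.sum_mul]
      refine Finset.sum_congr rfl fun j _ => ?_
      rw [hxi j, map_mul, map_intCast]
      ring
    have v0 := hval i0
    have v2 := hval i2
    have hn0 := hne i0
    rw [hx, form_ptv, h0'.2.1, h0'.2.2] at v0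
    rw [form_ptv, h0'.2.1, h0'.2.2] at hn0
    rw [hx, form_ptv, h2'.1, h2'.2.1] at v2
    rw [← hx] at v0 v2
    have w0 : aeval t (Pol a b (∑ j, Z i0 j * B0 j) 0 0) =
        algebraMap ℚ L (((b : ℚ) - a) * ((∑ j, Z i0 j * B0 j : ℤ) : ℚ)) := by
      simp [Pol]
    have w2 : aeval t (Pol a b 0 0 (∑ j, Z i2 j * B2 j)) =
        algebraMap ℚ L ((a : ℚ) * ((∑ j, Z i2 j * B2 j : ℤ) : ℚ)) * t ^ b := by
      simp [Pol]
    rw [w0] at v0 hn0
    rw [w2] at v2
    set c0 : ℚ := ((b : ℚ) - a) * ((∑ j, Z i0 j * B0 j : ℤ) : ℚ) with hc0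
    set c2 : ℚ := (a : ℚ) * ((∑ j, Z i2 j * B2 j : ℤ) : ℚ) with hc2
    set r0 : ℚ := ∑ j, (Z i0 j : ℚ) * ρ j with hr0
    set r2 : ℚ := ∑ j, (Z i2 j : ℚ) * ρ j with hr2
    have hc2' : c2 ≠ 0 := mul_ne_zero (Nat.cast_ne_zero.2 (by omega)) (Int.cast_ne_zero.2 h2'.2.2)
    have hr0' : r0 ≠ 0 := by
      intro h
      rw [h, map_zero, zero_mul] at v0
      exact hn0 v0
    have hc2L : algebraMap ℚ L c2 ≠ 0 := (_root_.map_ne_zero _).2 hc2'
    have hr0L : algebraMap ℚ L r0 ≠ 0 := (_root_.map_ne_zero _).2 hr0'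
    have huQ : (u : ℚ) ≠ 0 := Nat.cast_ne_zero.2 (by omega)
    have hb1 : 1 ≤ b := by omega
    clear_value c0 c2 r0 r2
    refine pow_not_rat hη hint hm2 hb1 (r2 * c0 / (r0 * c2 * (u : ℚ) ^ b)) ?_
    rw [map_div₀, map_mul, map_mul, map_mul, map_pow, map_natCast, eq_div_iff
      (mul_ne_zero (mul_ne_zero hr0L hc2L) (pow_ne_zero _ huL))]
    have e1 : η ^ b * (algebraMap ℚ L r0 * algebraMap ℚ L c2 * (u : L) ^ b) =
        algebraMap ℚ L r0 * (algebraMap ℚ L c2 * t ^ b) := by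
      rw [ht, mul_pow]
      ring
    rw [e1, v2, v0]
    ring
  · -- off the zero set of `G`
    have e1 : MvPolynomial.aeval x G = aeval t (onCurve (fun j => (B0 j : ℚ))
        (fun j => (B1 j : ℚ)) (fun j => (B2 j : ℚ)) a b G) := by
      have e2 : aeval t (onCurve (fun j => (B0 j : ℚ)) (fun j => (B1 j : ℚ))
          (fun j => (B2 j : ℚ)) a b G) = (aeval t : ℚ[X] →ₐ[ℚ] L).toRingHom
          (onCurve (fun j => (B0 j : ℚ)) (fun j => (B1 j : ℚ)) (fun j => (B2 j : ℚ)) a b G) := rfl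
      rw [e2, onCurve, MvPolynomial.hom_eval₂, MvPolynomial.aeval_def]
      congr 1
      · ext c
        simp
      · funext j
        simp [hx, ptv]
    rw [e1]
    exact hu1 u hm1 L η hη
  · intro U hU
    have hUt : ∀ v, v ∉ U → fv v t = 1 := by
      intro v hv
      rw [ht, map_mul, fv_eta hη hint, mul_one, hu, Nat.cast_pow, map_pow, hU v hv, one_pow]
    obtain ⟨k1, k2⟩ := hK L t U htle ht0 hUt h1t0 hunit hne
    rw [← hx] at k1 k2
    have htw : (totalWeight L : ℝ) = 2 := by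
      have := NumberField.totalWeight_eq_finrank (K := L)
      rw [this, hfin]
      norm_num
    have hHi : ∀ i, (fun j => algebraMap ℚ L (H i j)) ≠ 0 := by
      intro i h
      apply hneQ i
      refine Finset.sum_eq_zero fun j _ => ?_
      have := congrFun h j
      simp only [Pi.zero_apply] at this
      rw [this, zero_mul]
    have hterm : ∀ i, LamSup U (fun j => (Z i j : L)) + LamSup U x -
        Lam U (∑ j, (Z i j : L) * x j) = LamSup U (fun j => algebraMap ℚ L (H i j)) + LamSup U x -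
        Lam U (∑ j, algebraMap ℚ L (H i j) * x j) := by
      intro i
      have e1 : (fun j => (Z i j : L)) = fun j => (N : L) * algebraMap ℚ L (H i j) :=
        funext fun j => hZL i j
      rw [e1, LamSup_smul U hNL (hHi i), hform, Lam_mul U hNL (hneQ i)]
      ring
    rw [Finset.sum_congr rfl fun i _ => hterm i] at k2
    set T : ℝ := logHeight₁ t with hT
    set h : ℝ := logHeight x with hh
    have hW := height_t hη hint (by omega : 1 ≤ u)
    rw [← ht, ← hT, htw] at hW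
    rw [htw] at k1 k2
    have elog : Real.log u = m * Real.log p := by
      rw [hu]; push_cast; rw [Real.log_pow]
    have hD : Real.log |((NumberField.discr L : ℤ) : ℝ)| ≤ 2 * Real.log u := by
      have hd0 : (0 : ℝ) < |((NumberField.discr L : ℤ) : ℝ)| :=
        abs_pos.2 (Int.cast_ne_zero.2 (NumberField.discr_ne_zero L))
      have := Real.log_le_log hd0 hdisc
      rwa [Real.log_pow] at this
    have hRc : (Fintype.card ι : ℝ) = R + (n + 1) := by
      rw [← hcard, hR]; push_cast; ring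
    have e3 : (R - ε) * (b * T) ≤ (R - ε) * (h + 2 * K) :=
      mul_le_mul_of_nonneg_left k1 hRε
    have e4 : 2 * Real.log p * (1 - ε * b) * m = 2 * Real.log u * (1 - ε * b) := by
      rw [elog]; ring
    rw [e4] at hm3
    have e5 : 2 * Real.log u * (1 - ε * b) ≤ T * (1 - ε * b) :=
      mul_le_mul_of_nonneg_right hW (by linarith)
    rw [hRc] at k2
    have e6 : (O.card : ℝ) = R - 1 := by rw [hR]; ring
    rw [e6] at k2
    nlinarith

end Pool.Agent.W231.V
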