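import Pool.Agent.W231.V.Ht

set_option autoImplicit false

/-!
Sums of local terms over the infinite places and finitely many finite places.
-/

namespace Pool.Agent.W231.V

open NumberField IsDedekindDomain Height Finset

variable {L : Type*} [Field L] [NumberField L]

/-- the sum of `log |y|_w` over the infinite places and the finite places in `U` -/
noncomputable def Lam (U : Finset (HeightOneSpectrum (𝓞 L))) (y : L) : ℝ :=
  ∑ w : InfinitePlace L, (w.mult : ℝ) * Real.log (w y) + ∑ v ∈ U, Real.log (fv v y)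

lemma Lam_mul (U : Finset (HeightOneSpectrum (𝓞 L))) {x y : L} (hx : x ≠ 0) (hy : y ≠ 0) :
    Lam U (x * y) = Lam U x + Lam U y := by
  unfold Lam
  have h1 : ∀ w : InfinitePlace L, (w.mult : ℝ) * Real.log (w (x * y)) =
      w.mult * Real.log (w x) + w.mult * Real.log (w y) := by
    intro w
    rw [map_mul, Real.log_mul (w.pos_iff.2 hx).ne' (w.pos_iff.2 hy).ne']
    ring
  have h2 : ∀ v ∈ U, Real.log (fv v (x * y)) = Real.log (fv v x) + Real.log (fv v y) := by
    intro v _
    rw [map_mul, Real.log_mul ((fv v).pos_iff.2 hx).ne' ((fv v).pos_iff.2 hy).ne']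
  rw [sum_congr rfl fun w _ => h1 w, sum_congr rfl h2, sum_add_distrib, sum_add_distrib]
  ring

lemma Lam_pow (U : Finset (HeightOneSpectrum (𝓞 L))) {x : L} (n : ℕ) :
    Lam U (x ^ n) = n * Lam U x := by
  unfold Lam
  simp only [map_pow, Real.log_pow, mul_add, mul_sum]
  congr 1
  exact sum_congr rfl fun w _ => by ring

lemma Lam_le_height (U : Finset (HeightOneSpectrum (𝓞 L))) {y : L} (hy : y ≠ 0) :
    Lam U y ≤ logHeight₁ y := by
  classical
  rw [NumberField.logHeight₁_eq]
  unfold Lam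
  have h1 : ∑ᶠ w : FinitePlace L, Real.posLog (w y) =
      ∑ᶠ v : HeightOneSpectrum (𝓞 L), Real.posLog (fv v y) := by
    rw [← finsum_comp_equiv (FinitePlace.equivHeightOneSpectrum (K := L)).symm]
    rfl
  have hfin := fv_support_finite hy
  have h2 : ∑ᶠ v : HeightOneSpectrum (𝓞 L), Real.posLog (fv v y) =
      ∑ v ∈ hfin.toFinset ∪ U, Real.posLog (fv v y) := by
    refine finsum_eq_sum_of_support_subset _ ?_
    intro v hv
    rw [Finset.coe_union, Set.Finite.coe_toFinset]
    left
    simp only [Function.mem_support, Set.mem_ofPred_eq] at hv ⊢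
    intro h
    rw [h] at hv
    exact hv Real.posLog_one
  rw [h1, h2]
  refine add_le_add (sum_le_sum fun w _ => ?_) ?_
  · exact mul_le_mul_of_nonneg_left (le_max_right _ _) (Nat.cast_nonneg _)
  · calc ∑ v ∈ U, Real.log (fv v y) ≤ ∑ v ∈ U, Real.posLog (fv v y) :=
        sum_le_sum fun v _ => le_max_right _ _
      _ ≤ _ := sum_le_sum_of_subset_of_nonneg subset_union_right fun v _ _ => Real.posLog_nonneg

lemma Lam_ge_height (U : Finset (HeightOneSpectrum (𝓞 L))) {y : L} (hy : y ≠ 0) :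
    -logHeight₁ y ≤ Lam U y := by
  have h1 := Lam_le_height U (inv_ne_zero hy)
  have h2 : Lam U y⁻¹ = -Lam U y := by
    have h3 := Lam_mul U hy (inv_ne_zero hy)
    have h4 : Lam U (1 : L) = 0 := by simp [Lam]
    rw [mul_inv_cancel₀ hy, h4] at h3
    linarith
  rw [h2, logHeight₁_inv] at h1
  linarith

/-- product formula -/
lemma Lam_eq_zero (U : Finset (HeightOneSpectrum (𝓞 L))) {y : L} (hy : y ≠ 0)
    (h : ∀ v, v ∉ U → fv v y = 1) : Lam U y = 0 := by
  have h1 := NumberField.prod_abs_eq_one hy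
  have h2 : ∏ᶠ w : FinitePlace L, w y = ∏ v ∈ U, fv v y := by
    have e : ∏ᶠ w : FinitePlace L, w y = ∏ᶠ v : HeightOneSpectrum (𝓞 L), fv v y := by
      rw [← finprod_comp_equiv (FinitePlace.equivHeightOneSpectrum (K := L)).symm]
      rfl
    rw [e]
    refine finprod_eq_prod_of_mulSupport_subset _ fun v hv => ?_
    by_contra hc
    exact hv (h v hc)
  rw [h2] at h1
  have h3 : 0 < ∏ v ∈ U, fv v y := prod_pos fun v _ => (fv v).pos_iff.2 hy
  have h4 : 0 < ∏ w : InfinitePlace L, w y ^ w.mult :=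
    prod_pos fun w _ => pow_pos (w.pos_iff.2 hy) _
  have h5 := congrArg Real.log h1
  rw [Real.log_mul h4.ne' h3.ne', Real.log_one, Real.log_prod (fun w _ =>
    (pow_pos (w.pos_iff.2 hy) _).ne'), Real.log_prod (fun v _ => ((fv v).pos_iff.2 hy).ne')] at h5
  simp only [Real.log_pow] at h5
  exact h5

lemma fv_int_le (v : HeightOneSpectrum (𝓞 L)) (c : ℤ) : fv v (c : L) ≤ 1 := by
  have h := NumberField.HeightOneSpectrum.adicAbv_intCast_le_one L v c
  have h2 : fv v (c : L) = ‖FinitePlace.embedding v (c : L)‖ := rfl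
  rw [h2, FinitePlace.norm_embedding]
  exact h

lemma fv_sum_le (v : HeightOneSpectrum (𝓞 L)) {κ : Type*} (s : Finset κ) (f : κ → L)
    (h : ∀ k ∈ s, fv v (f k) ≤ 1) : fv v (∑ k ∈ s, f k) ≤ 1 := by
  classical
  induction s using Finset.induction_on with
  | empty => simp
  | insert k s hk ih =>
    rw [sum_insert hk]
    exact (fv_na v _ _).trans (max_le (h k (mem_insert_self k s))
      (ih fun j hj => h j (mem_insert_of_mem hj)))

/-- values of integer polynomials at algebraic integers -/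
lemma Lam_poly (U : Finset (HeightOneSpectrum (𝓞 L))) {t : L} (ht : ∀ v, fv v t ≤ 1)
    (P : Polynomial ℤ) {e : ℕ} (he : P.natDegree ≤ e) (hP : Polynomial.aeval t P ≠ 0) :
    Lam U (Polynomial.aeval t P) ≤ (totalWeight L : ℝ) *
      Real.log (1 + ∑ i ∈ range (e + 1), |(P.coeff i : ℝ)|) + e * logHeight₁ t := by
  have hsum : Polynomial.aeval t P = ∑ i ∈ range (e + 1), (P.coeff i : L) * t ^ i := by
    rw [Polynomial.aeval_def, Polynomial.eval₂_eq_sum_range' _ (Nat.lt_succ_of_le he)]
    rfl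
  set C : ℝ := 1 + ∑ i ∈ range (e + 1), |(P.coeff i : ℝ)| with hC
  have hC1 : 1 ≤ C := by
    have : 0 ≤ ∑ i ∈ range (e + 1), |(P.coeff i : ℝ)| := sum_nonneg fun i _ => abs_nonneg _
    linarith
  -- finite places
  have hfin : ∑ v ∈ U, Real.log (fv v (Polynomial.aeval t P)) ≤ 0 := by
    refine sum_nonpos fun v _ => Real.log_nonpos ((fv v).nonneg _) ?_
    rw [hsum]
    refine fv_sum_le v _ _ fun i _ => ?_
    rw [map_mul, map_pow]
    exact mul_le_one₀ (fv_int_le v _) (pow_nonneg ((fv v).nonneg _) _)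
      (pow_le_one₀ ((fv v).nonneg _) (ht v))
  -- infinite places
  have hinf : ∀ w : InfinitePlace L, Real.log (w (Polynomial.aeval t P)) ≤
      Real.log C + e * Real.posLog (w t) := by
    intro w
    have h0 : 0 < w (Polynomial.aeval t P) := w.pos_iff.2 hP
    have hm : (1 : ℝ) ≤ max 1 (w t) := le_max_left _ _
    have h1 : w (Polynomial.aeval t P) ≤ C * max 1 (w t) ^ e := by
      rw [hsum]
      calc w (∑ i ∈ range (e + 1), (P.coeff i : L) * t ^ i)
          ≤ ∑ i ∈ range (e + 1), w ((P.coeff i : L) * t ^ i) :=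
            w.1.sum_le _ _
        _ ≤ ∑ i ∈ range (e + 1), |(P.coeff i : ℝ)| * max 1 (w t) ^ e := by
            refine sum_le_sum fun i hi => ?_
            rw [map_mul, map_pow]
            have e1 : w (P.coeff i : L) = |(P.coeff i : ℝ)| := by
              simp [Int.norm_eq_abs]
            rw [e1]
            refine mul_le_mul_of_nonneg_left ?_ (abs_nonneg _)
            calc w t ^ i ≤ max 1 (w t) ^ i := pow_le_pow_left₀ (apply_nonneg w _) (le_max_right _ _) _
              _ ≤ max 1 (w t) ^ e := pow_le_pow_right₀ hm (by rw [mem_range] at hi; omega)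
        _ = (∑ i ∈ range (e + 1), |(P.coeff i : ℝ)|) * max 1 (w t) ^ e := by rw [sum_mul]
        _ ≤ C * max 1 (w t) ^ e := by
            refine mul_le_mul_of_nonneg_right ?_ (by positivity)
            linarith
    have h2 := Real.log_le_log h0 h1
    rw [Real.log_mul (by linarith) (by positivity), Real.log_pow] at h2
    rwa [Real.posLog_eq_log_max_one (apply_nonneg w _)]
  have hh : ∑ w : InfinitePlace L, (w.mult : ℝ) * Real.posLog (w t) ≤ logHeight₁ t := by
    rw [NumberField.logHeight₁_eq]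
    have : 0 ≤ ∑ᶠ v : FinitePlace L, Real.posLog (v t) := finsum_nonneg fun v => Real.posLog_nonneg
    linarith
  unfold Lam
  calc _ ≤ ∑ w : InfinitePlace L, (w.mult : ℝ) * (Real.log C + e * Real.posLog (w t)) + 0 :=
        add_le_add (sum_le_sum fun w _ => mul_le_mul_of_nonneg_left (hinf w) (Nat.cast_nonneg _))
          hfin
    _ = (totalWeight L : ℝ) * Real.log C +
        e * ∑ w : InfinitePlace L, (w.mult : ℝ) * Real.posLog (w t) := by
        rw [add_zero, ← sum_mult (K := L), sum_mul, mul_sum, ← sum_add_distrib]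
        exact sum_congr rfl fun w _ => by ring
    _ ≤ _ := by
        have : (0 : ℝ) ≤ e := Nat.cast_nonneg _
        nlinarith

/-- the same sum for the maximum of the absolute values of the coordinates -/
noncomputable def LamSup {σ : Type*} (U : Finset (HeightOneSpectrum (𝓞 L))) (x : σ → L) : ℝ :=
  ∑ w : InfinitePlace L, (w.mult : ℝ) * Real.log (⨆ j, w (x j)) +
    ∑ v ∈ U, Real.log (⨆ j, fv v (x j))

lemma LamSup_ge {σ : Type*} [Finite σ] (U : Finset (HeightOneSpectrum (𝓞 L))) (x : σ → L) (j : σ)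
    (hj : x j ≠ 0) : Lam U (x j) ≤ LamSup U x := by
  unfold Lam LamSup
  refine add_le_add (sum_le_sum fun w _ => mul_le_mul_of_nonneg_left ?_ (Nat.cast_nonneg _))
    (sum_le_sum fun v _ => ?_)
  · exact Real.log_le_log (w.pos_iff.2 hj) (le_ciSup (f := fun j => w (x j))
      (Set.finite_range _).bddAbove j)
  · exact Real.log_le_log ((fv v).pos_iff.2 hj) (le_ciSup (f := fun j => fv v (x j))
      (Set.finite_range _).bddAbove j)

lemma logHeight_le_LamSup {σ : Type*} [Finite σ] [Nonempty σ]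
    (U : Finset (HeightOneSpectrum (𝓞 L))) (x : σ → L) (hx : x ≠ 0)
    (h : ∀ v j, fv v (x j) ≤ 1) : logHeight x ≤ LamSup U x := by
  classical
  obtain ⟨j, hj⟩ := Function.ne_iff.1 hx
  have hj' : x j ≠ 0 := hj
  rw [logHeight_eq_log_mulHeight, NumberField.mulHeight_eq hx]
  set g : HeightOneSpectrum (𝓞 L) → ℝ := fun v => ⨆ j, fv v (x j) with hg
  have hg1 : ∀ v, g v ≤ 1 := fun v => ciSup_le fun j => h v j
  have hgj : ∀ v, fv v (x j) ≤ g v := fun v =>
    le_ciSup (f := fun j => fv v (x j)) (Set.finite_range _).bddAbove j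
  have hg0 : ∀ v, 0 < g v := fun v => ((fv v).pos_iff.2 hj').trans_le (hgj v)
  have e : ∏ᶠ v : FinitePlace L, ⨆ i, v (x i) = ∏ᶠ v : HeightOneSpectrum (𝓞 L), g v := by
    rw [← finprod_comp_equiv (FinitePlace.equivHeightOneSpectrum (K := L)).symm]
    rfl
  have hfin := fv_support_finite hj'
  have e2 : ∏ᶠ v : HeightOneSpectrum (𝓞 L), g v = ∏ v ∈ hfin.toFinset ∪ U, g v := by
    refine finprod_eq_prod_of_mulSupport_subset _ fun v hv => ?_
    rw [Finset.coe_union, Set.Finite.coe_toFinset]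
    left
    intro h1
    exact hv (le_antisymm (hg1 v) (h1 ▸ hgj v))
  have e3 : ∏ v ∈ hfin.toFinset ∪ U, g v ≤ ∏ v ∈ U, g v := by
    rw [← Finset.prod_sdiff (Finset.subset_union_right (s₁ := hfin.toFinset) (s₂ := U))]
    have h1 : ∏ v ∈ (hfin.toFinset ∪ U) \ U, g v ≤ 1 :=
      Finset.prod_le_one (fun v _ => (hg0 v).le) fun v _ => hg1 v
    have h2 : 0 ≤ ∏ v ∈ U, g v := Finset.prod_nonneg fun v _ => (hg0 v).le
    nlinarith
  have hw0 : ∀ w : InfinitePlace L, 0 < ⨆ i, w (x i) := fun w =>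
    (w.pos_iff.2 hj').trans_le (le_ciSup (f := fun j => w (x j)) (Set.finite_range _).bddAbove j)
  have h4 : 0 < ∏ w : InfinitePlace L, (⨆ i, w (x i)) ^ w.mult :=
    prod_pos fun w _ => pow_pos (hw0 w) _
  have h5 : 0 < ∏ v ∈ hfin.toFinset ∪ U, g v := prod_pos fun v _ => hg0 v
  rw [e, e2, Real.log_mul h4.ne' h5.ne']
  unfold LamSup
  refine add_le_add (le_of_eq ?_) ?_
  · rw [Real.log_prod fun w _ => (pow_pos (hw0 w) _).ne']
    simp only [Real.log_pow]
  · refine (Real.log_le_log h5 e3).trans (le_of_eq ?_)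
    rw [Real.log_prod fun v _ => (hg0 v).ne']

lemma logHeight₁_int {c : ℤ} (hc : c ≠ 0) :
    logHeight₁ (c : L) = (totalWeight L : ℝ) * Real.log |(c : ℝ)| := by
  have h1 : 1 ≤ c.natAbs := Int.natAbs_pos.2 hc
  have h2 := logHeight₁_nat (K := L) h1
  have h3 : ((c.natAbs : ℕ) : ℝ) = |(c : ℝ)| := by
    rw [Nat.cast_natAbs]; push_cast; rfl
  rw [h3] at h2
  rcases Int.natAbs_eq c with h | h
  · have h4 : (c : L) = ((c.natAbs : ℕ) : L) := by
      conv_lhs => rw [h]
      simp
    rw [h4, h2]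
  · have h4 : (c : L) = -((c.natAbs : ℕ) : L) := by
      conv_lhs => rw [h]
      simp
    rw [h4, logHeight₁_neg, h2]

/-- The height of a vector on which two integral linear forms take the values `c₀`, `c₂ t ^ b`. -/
lemma logHeight_ge' {σ : Type*} [Fintype σ] (l0 l2 : σ → ℤ) (c0 c2 : ℤ) (hc0 : c0 ≠ 0)
    (hc2 : c2 ≠ 0) : ∃ C : ℝ, ∀ (L : Type) [Field L] [NumberField L] (x : σ → L) (b : ℕ) (t : L),
    ∑ j, (l0 j : L) * x j = c0 → ∑ j, (l2 j : L) * x j = c2 * t ^ b →
    b * logHeight₁ t ≤ logHeight x + (totalWeight L : ℝ) * C := by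
  set e : Fin 2 × σ → ℤ := fun p => ![fun j => c0 * l2 j, fun j => c2 * l0 j] p.1 p.2 with he
  set M : ℝ := 1 + ∑ p, |(e p : ℝ)| with hM
  have hMpos : 0 < M := by
    have : 0 ≤ ∑ p, |(e p : ℝ)| := sum_nonneg fun p _ => abs_nonneg _
    linarith
  refine ⟨Real.log (Nat.card σ) + Real.log M, fun L _ _ x b t h0 h2 => ?_⟩
  have h1 := logHeight_linearMap_apply_le (fun p => (e p : L)) x
  have hA : (fun j => ∑ i, (e (j, i) : L) * x i) = ((c0 * c2 : ℤ) : L) • ![t ^ b, 1] := by
    funext j
    fin_cases j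
    · have : ∀ i, ((c0 * l2 i : ℤ) : L) * x i = c0 * (l2 i * x i) := fun i => by push_cast; ring
      simp only [he, Fin.zero_eta, Fin.isValue, Matrix.cons_val_zero, this, ← mul_sum, h2]
      simp
      ring
    · have : ∀ i, ((c2 * l0 i : ℤ) : L) * x i = c2 * (l0 i * x i) := fun i => by push_cast; ring
      simp only [he, Fin.mk_one, Fin.isValue, Matrix.cons_val_one, Matrix.cons_val_fin_one, this,
        ← mul_sum, h0]
      simp
      ring
  have hcc : ((c0 * c2 : ℤ) : L) ≠ 0 := Int.cast_ne_zero.2 (mul_ne_zero hc0 hc2)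
  rw [hA, logHeight_smul_eq_logHeight _ hcc, ← logHeight₁_eq_logHeight, logHeight₁_pow] at h1
  have hne : Nonempty σ := by
    by_contra hcon
    rw [not_nonempty_iff] at hcon
    rw [Finset.univ_eq_empty, sum_empty] at h0
    exact Int.cast_ne_zero.2 hc0 h0.symm
  have hA0 : (fun p => (e p : L)) ≠ 0 := by
    intro h
    have h3 : (fun j => ∑ i, (e (j, i) : L) * x i) = 0 := by
      funext j
      refine sum_eq_zero fun i _ => ?_
      have := congrFun h (j, i)
      simp only [Pi.zero_apply] at this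
      rw [this, zero_mul]
    rw [hA] at h3
    have := congrFun h3 1
    simp at this
    rcases this with h | h
    · exact hc0 h
    · exact hc2 h
  have h4 : logHeight (fun p => (e p : L)) ≤ (totalWeight L : ℝ) * Real.log M := by
    refine logHeight_le_of hA0 hMpos ?_ ?_
    · intro w p
      have e1 : w (e p : L) = |(e p : ℝ)| := by simp [Int.norm_eq_abs]
      rw [e1]
      have := Finset.single_le_sum (f := fun p => |(e p : ℝ)|) (fun p _ => abs_nonneg _)
        (Finset.mem_univ p)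
      linarith
    · intro v p
      exact fv_int_le v _
  linarith

end Pool.Agent.W231.V
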