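import Pool.Agent.W231.V.Alg

set_option autoImplicit false

/-!
A form of small degree which does not vanish on the plane spanned by three vectors does not vanish
on one of the curves `(b - a : -b t^a : a t^b)` of that plane.
-/

namespace Pool.Agent.W231.V

open Polynomial

variable {F : Type*} [Field F] {σ : Type*}

lemma hom_eval₂ {S : Type*} [CommRing S] (φ : F →+* S) {G : MvPolynomial σ F} {δ : ℕ}
    (hG : G.IsHomogeneous δ) (c : S) (x : σ → S) :
    MvPolynomial.eval₂ φ (fun j => c * x j) G = c ^ δ * MvPolynomial.eval₂ φ x G := by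
  rw [MvPolynomial.eval₂_eq, MvPolynomial.eval₂_eq, Finset.mul_sum]
  refine Finset.sum_congr rfl fun d hd => ?_
  have h1 : d.degree = δ := by
    have := hG (MvPolynomial.mem_support_iff.1 hd)
    exact (DFunLike.congr_fun (Finsupp.degree_eq_weight_one (σ := σ) (R := ℕ)) d).trans this
  rw [Finset.prod_congr rfl fun i _ => mul_pow c (x i) (d i), Finset.prod_mul_distrib,
    Finset.prod_pow_eq_pow_sum]
  have h2 : ∑ i ∈ d.support, d i = δ := by rw [← h1]; rfl
  rw [h2]
  ring

/-- the polynomial of the restriction of `G` to the curve -/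
noncomputable def onCurve (A0 A1 A2 : σ → F) (a b : ℕ) (G : MvPolynomial σ F) : F[X] :=
  MvPolynomial.eval₂ C (fun j => C (((b : F) - a) * A0 j) - C (b * A1 j) * X ^ a +
    C (a * A2 j) * X ^ b) G

lemma exists_curve [CharZero F] (G : MvPolynomial σ F) {δ : ℕ} (hG : G.IsHomogeneous δ)
    (A0 A1 A2 : σ → F) (s y1 y2 : F) (hs : s ≠ 0)
    (hp : MvPolynomial.eval (fun j => s * A0 j + y1 * A1 j + y2 * A2 j) G ≠ 0) (B : ℕ)
    (hB : δ < ∑ b ∈ Finset.Icc 2 B, b * b.totient) :
    ∃ a b : ℕ, 1 ≤ a ∧ a < b ∧ b ≤ B ∧ onCurve A0 A1 A2 a b G ≠ 0 := by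
  classical
  by_contra hcon
  push Not at hcon
  -- the dehomogenised restriction to the plane
  set f : F[X][X] := MvPolynomial.eval₂ ((C : F[X] →+* F[X][X]).comp (C : F →+* F[X]))
    (fun j => C (C (A0 j)) + C (C (A1 j)) * X + C (C (A2 j) * X)) G with hf
  have hf0 : f ≠ 0 := by
    intro h0
    apply hp
    have h1 : (f.eval (C (y1 / s))).eval (y2 / s) =
        MvPolynomial.eval₂ (RingHom.id F) (fun j => A0 j + (y1 / s) * A1 j + (y2 / s) * A2 j) G := by
      have h2 : (f.eval (C (y1 / s))).eval (y2 / s) =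
          ((evalRingHom (y2 / s)).comp (evalRingHom (C (y1 / s)))) f := rfl
      rw [h2, hf, MvPolynomial.hom_eval₂]
      have h3 : ((evalRingHom (y2 / s)).comp (evalRingHom (C (y1 / s)))).comp
          ((C : F[X] →+* F[X][X]).comp (C : F →+* F[X])) = RingHom.id F := by
        ext c
        simp
      rw [h3]
      congr 1
      funext j
      simp only [RingHom.coe_comp, Function.comp_apply, coe_evalRingHom, eval_add, eval_mul, eval_C,
        eval_X]
      ring
    rw [h0, eval_zero, eval_zero] at h1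
    have h2 : (fun j => s * A0 j + y1 * A1 j + y2 * A2 j) =
        fun j => s * (A0 j + (y1 / s) * A1 j + (y2 / s) * A2 j) := by
      funext j
      field_simp
    have h3 := hom_eval₂ (RingHom.id F) hG s
      (fun j => A0 j + (y1 / s) * A1 j + (y2 / s) * A2 j)
    rw [← h1, mul_zero] at h3
    rw [h2]
    exact h3
  have hdeg : f.natDegree ≤ δ := by
    have h1 := MvPolynomial.aeval_natDegree_le (m := δ) (n := 1)
      (MvPolynomial.map (C : F →+* F[X]) G)
      ((hG.map _).totalDegree_le)
      (fun j => C (C (A0 j)) + C (C (A1 j)) * X + C (C (A2 j) * X)) (fun j => by compute_degree)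
    rw [mul_one, MvPolynomial.aeval_def, MvPolynomial.eval₂_map] at h1
    exact h1
  -- the set of pairs
  set T : Finset (Σ _ : ℕ, ℕ) := (Finset.Icc 2 B).sigma
    (fun b => (Finset.range b).filter (fun a => b.Coprime a)) with hT
  have hmem : ∀ p ∈ T, 1 ≤ p.2 ∧ p.2 < p.1 ∧ p.1 ≤ B ∧ p.1.Coprime p.2 := by
    rintro ⟨b, a⟩ hp
    rw [hT, Finset.mem_sigma, Finset.mem_Icc, Finset.mem_filter, Finset.mem_range] at hp
    obtain ⟨⟨h1, h2⟩, h3, h4⟩ := hp
    refine ⟨?_, h3, h2, h4⟩
    simp only at h1 h4 ⊢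
    by_contra h5
    have h6 : a = 0 := by omega
    rw [h6, Nat.coprime_zero_right] at h4
    omega
  have hsum : ∑ p ∈ T, p.1 = ∑ b ∈ Finset.Icc 2 B, b * b.totient := by
    rw [hT, Finset.sum_sigma]
    refine Finset.sum_congr rfl fun b _ => ?_
    rw [Finset.sum_const, smul_eq_mul, mul_comm, Nat.totient_eq_card_coprime]
  have hba : ∀ p ∈ T, ((p.1 : F) - p.2) ≠ 0 := by
    intro p hp h
    have h1 := (hmem p hp).2.1
    rw [sub_eq_zero] at h
    have h2 : p.1 = p.2 := by exact_mod_cast h
    omega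
  have key := degree_bound T (fun p => p.2) (fun p => p.1)
    (fun p => -(p.1 : F) / ((p.1 : F) - p.2)) (fun p => (p.2 : F) / ((p.1 : F) - p.2))
    (fun p hp => by
      have h := hmem p hp
      refine div_ne_zero (neg_ne_zero.2 ?_) (hba p hp)
      exact Nat.cast_ne_zero.2 (by omega))
    (fun p hp => by
      have h := hmem p hp
      refine div_ne_zero ?_ (hba p hp)
      exact Nat.cast_ne_zero.2 (by omega))
    (fun p hp => by have h := hmem p hp; omega)
    (fun p hp => ((hmem p hp).2.2.2).symm)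
    (by
      rintro ⟨b, a⟩ hp ⟨b', a'⟩ hq hne heq
      apply hne
      have h1 := hmem _ hp
      have h2 := hmem _ hq
      simp only at h1 h2 heq
      have h3 : b = b' := by
        apply Nat.dvd_antisymm
        · refine Nat.Coprime.dvd_of_dvd_mul_left h1.2.2.2 ?_
          rw [heq]
          exact dvd_mul_right _ _
        · refine Nat.Coprime.dvd_of_dvd_mul_left h2.2.2.2 ?_
          rw [mul_comm a' b, ← heq]
          exact dvd_mul_left _ _
      subst h3
      have h4 : a = a' := by
        rw [mul_comm a b] at heq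
        exact Nat.eq_of_mul_eq_mul_left (by omega) heq
      rw [h4])
    f hf0
    (by
      intro p hp
      have h1 := hmem p hp
      have h2 := hcon p.2 p.1 h1.1 h1.2.1 h1.2.2.1
      have hb0 := hba p hp
      have h3 : crv (-(p.1 : F) / ((p.1 : F) - p.2)) ((p.2 : F) / ((p.1 : F) - p.2)) p.2 p.1 f =
          MvPolynomial.eval₂ C (fun j => C (A0 j) -
            C ((p.1 : F) / ((p.1 : F) - p.2) * A1 j) * X ^ p.2 +
            C ((p.2 : F) / ((p.1 : F) - p.2) * A2 j) * X ^ p.1) G := by
        rw [hf, MvPolynomial.hom_eval₂]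
        have h4 : (crv (-(p.1 : F) / ((p.1 : F) - p.2)) ((p.2 : F) / ((p.1 : F) - p.2)) p.2 p.1).comp
            ((C : F[X] →+* F[X][X]).comp (C : F →+* F[X])) = C := by
          ext c
          simp [crv_C, sub_C]
        rw [h4]
        congr 1
        funext j
        rw [map_add, map_add, map_mul, crv_C, crv_C, crv_C, crv_X, sub_C, sub_C, map_mul, sub_C,
          sub_X]
        simp only [C_mul, neg_div, C_neg]
        ring
      rw [h3]
      have h5 := hom_eval₂ (C : F →+* F[X]) hG (C ((p.1 : F) - p.2))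
        (fun j => C (A0 j) - C ((p.1 : F) / ((p.1 : F) - p.2) * A1 j) * X ^ p.2 +
            C ((p.2 : F) / ((p.1 : F) - p.2) * A2 j) * X ^ p.1)
      have h6 : onCurve A0 A1 A2 p.2 p.1 G = MvPolynomial.eval₂ C (fun j => C ((p.1 : F) - p.2) *
        (C (A0 j) - C ((p.1 : F) / ((p.1 : F) - p.2) * A1 j) * X ^ p.2 +
            C ((p.2 : F) / ((p.1 : F) - p.2) * A2 j) * X ^ p.1)) G := by
        unfold onCurve
        congr 1
        funext j
        have e1 : ((p.1 : F) - p.2) * ((p.1 : F) / ((p.1 : F) - p.2) * A1 j) = p.1 * A1 j := by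
          field_simp
        have e2 : ((p.1 : F) - p.2) * ((p.2 : F) / ((p.1 : F) - p.2) * A2 j) = p.2 * A2 j := by
          field_simp
        rw [mul_add, mul_sub, ← mul_assoc, ← mul_assoc, ← C_mul, ← C_mul, ← C_mul, e1, e2]
      rw [h6, h5] at h2
      refine (mul_eq_zero.1 h2).resolve_left (pow_ne_zero _ ?_)
      rwa [Ne, C_eq_zero])
  rw [hsum] at key
  omega

end Pool.Agent.W231.V
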