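import Mathlib

set_option autoImplicit false

/-!
A polynomial in two variables which vanishes on the curves `(α t^a, β t^b)`, one for each pair
`(a, b)` of a finite set of pairs of coprime integers, has degree at least `∑ b`.
-/

namespace Pool.Agent.W231.V

open Polynomial

variable {F : Type*} [Field F]

/-- substitution `X ↦ β X ^ b` -/
noncomputable def sub (β : F) (b : ℕ) : F[X] →+* F[X] :=
  ((expand F b : F[X] →ₐ[F] F[X]) : F[X] →+* F[X]).comp (compRingHom (C β * X))

/-- the substitution `v ↦ α t ^ a`, `w ↦ β t ^ b`, for `f ∈ F[w][v]` -/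
noncomputable def crv (α β : F) (a b : ℕ) : F[X][X] →+* F[X] :=
  eval₂RingHom (sub β b) (C α * X ^ a)

lemma sub_coeff (β : F) {b : ℕ} (hb : 0 < b) (p : F[X]) (n : ℕ) :
    (sub β b p).coeff n = if b ∣ n then p.coeff (n / b) * β ^ (n / b) else 0 := by
  have : sub β b p = expand F b (p.comp (C β * X)) := rfl
  rw [this, coeff_expand hb]
  split_ifs with h
  · rw [comp_C_mul_X_coeff]
  · rfl

lemma sub_X (β : F) (b : ℕ) : sub β b X = C β * X ^ b := by
  have : sub β b X = expand F b ((X : F[X]).comp (C β * X)) := rfl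
  rw [this, X_comp, map_mul, expand_C, expand_X]

lemma sub_C (β : F) (b : ℕ) (c : F) : sub β b (C c) = C c := by
  have : sub β b (C c) = expand F b ((C c : F[X]).comp (C β * X)) := rfl
  rw [this, C_comp, expand_C]

lemma crv_X (α β : F) (a b : ℕ) : crv α β a b X = C α * X ^ a := by
  simp [crv]

lemma crv_C (α β : F) (a b : ℕ) (p : F[X]) : crv α β a b (C p) = sub β b p := by
  simp [crv]

/-- the binomial vanishing on the curve -/
noncomputable def bin (α β : F) (a b : ℕ) : F[X][X] :=
  X ^ b - C (C (α ^ b / β ^ a) * X ^ a)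

lemma bin_monic (α β : F) (a : ℕ) {b : ℕ} (hb : 0 < b) : (bin α β a b).Monic :=
  monic_X_pow_sub_C _ hb.ne'

lemma bin_natDegree (α β : F) (a : ℕ) {b : ℕ} : (bin α β a b).natDegree = b :=
  natDegree_X_pow_sub_C

lemma crv_bin (α β α' β' : F) (a b a' b' : ℕ) :
    crv α' β' a' b' (bin α β a b) =
      C (α' ^ b) * X ^ (a' * b) - C (α ^ b / β ^ a * β' ^ a) * X ^ (b' * a) := by
  unfold bin
  rw [map_sub, map_pow, crv_X, crv_C, map_mul, sub_C, map_pow, sub_X, mul_pow, mul_pow, ← pow_mul,
    ← pow_mul, ← C_pow, ← C_pow, ← mul_assoc, ← C_mul]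

lemma crv_bin_self {α β : F} (hβ : β ≠ 0) (a b : ℕ) : crv α β a b (bin α β a b) = 0 := by
  rw [crv_bin, div_mul_cancel₀ _ (pow_ne_zero _ hβ), mul_comm b a, sub_self]

lemma crv_bin_ne {α β α' β' : F} (hα' : α' ≠ 0) {a b a' b' : ℕ} (h : a' * b ≠ b' * a) :
    crv α' β' a' b' (bin α β a b) ≠ 0 := by
  rw [crv_bin]
  intro h0
  have h1 := congrArg (fun p => p.coeff (a' * b)) h0
  simp only [coeff_sub, coeff_C_mul, coeff_X_pow, coeff_zero, if_neg h] at h1
  simp at h1
  exact hα' h1.1

/-- the kernel of the substitution meets polynomials of small degree trivially -/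
lemma eq_zero_of_crv {α β : F} (hα : α ≠ 0) (hβ : β ≠ 0) {a b : ℕ} (hb : 0 < b)
    (hab : Nat.Coprime a b) (r : F[X][X]) (hr : r.natDegree < b) (h : crv α β a b r = 0) :
    r = 0 := by
  have hexp : crv α β a b r = ∑ i ∈ Finset.range b, sub β b (r.coeff i) * (C α * X ^ a) ^ i := by
    unfold crv
    rw [coe_eval₂RingHom]
    exact eval₂_eq_sum_range' _ hr _
  have hcoef : ∀ i < b, ∀ j, (r.coeff i).coeff j = 0 := by
    intro i hi j
    have h1 := congrArg (fun p => p.coeff (b * j + a * i)) (hexp.symm.trans h)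
    simp only [finsetSum_coeff, coeff_zero] at h1
    rw [Finset.sum_eq_single i] at h1
    · rw [mul_pow, ← C_pow, ← pow_mul, ← mul_assoc, coeff_mul_X_pow, mul_comm, coeff_C_mul,
        sub_coeff β hb, if_pos (dvd_mul_right b j), Nat.mul_div_cancel_left _ hb] at h1
      have h2 : α ^ i ≠ 0 := pow_ne_zero _ hα
      have h3 : β ^ j ≠ 0 := pow_ne_zero _ hβ
      simpa [h2, h3] using h1
    · intro k hk hki
      rw [mul_pow, ← C_pow, ← pow_mul, ← mul_assoc, coeff_mul_X_pow', mul_comm (sub β b _)]
      split_ifs with hle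
      · rw [coeff_C_mul, sub_coeff β hb, if_neg, mul_zero]
        intro hdvd
        rw [Finset.mem_range] at hk
        apply hki
        have h4 : a * k ≡ b * j + a * i [MOD b] := (Nat.modEq_iff_dvd' hle).2 hdvd
        have h5 : b * j + a * i ≡ a * i [MOD b] := by
          have : b * j ≡ 0 [MOD b] := (Nat.modEq_zero_iff_dvd).2 (dvd_mul_right b j)
          simpa using this.add_right (a * i)
        have h6 : k ≡ i [MOD b] := Nat.ModEq.cancel_left_of_coprime
          (by rw [Nat.gcd_comm]; exact hab) (h4.trans h5)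
        exact Nat.ModEq.eq_of_lt_of_lt h6 hk hi
      · rfl
    · intro hi'
      exact absurd (Finset.mem_range.2 hi) hi'
  refine Polynomial.ext fun i => ?_
  rw [coeff_zero]
  rcases lt_or_ge i b with hi | hi
  · refine Polynomial.ext fun j => ?_
    rw [coeff_zero]
    exact hcoef i hi j
  · exact coeff_eq_zero_of_natDegree_lt (lt_of_lt_of_le hr hi)

/-- the binomial divides every polynomial vanishing on the curve -/
lemma bin_dvd {α β : F} (hα : α ≠ 0) (hβ : β ≠ 0) {a b : ℕ} (hb : 0 < b)
    (hab : Nat.Coprime a b) (f : F[X][X]) (h : crv α β a b f = 0) : bin α β a b ∣ f := by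
  have hm := bin_monic α β a hb
  rw [← modByMonic_eq_zero_iff_dvd hm]
  apply eq_zero_of_crv hα hβ hb hab
  · have h1 := natDegree_modByMonic_lt f hm (by
      intro h1
      have h2 := bin_natDegree α β a (b := b)
      rw [h1, natDegree_one] at h2
      omega)
    rwa [bin_natDegree] at h1
  · have h1 := modByMonic_add_div f (bin α β a b)
    have h2 := congrArg (crv α β a b) h1
    rwa [map_add, map_mul, crv_bin_self hβ, zero_mul, add_zero, h] at h2

/-- **The degree bound.** -/
theorem degree_bound {ι : Type*} (T : Finset ι) (A B : ι → ℕ) (α β : ι → F)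
    (hα : ∀ i ∈ T, α i ≠ 0) (hβ : ∀ i ∈ T, β i ≠ 0) (hB : ∀ i ∈ T, 0 < B i)
    (hcop : ∀ i ∈ T, Nat.Coprime (A i) (B i))
    (hne : ∀ i ∈ T, ∀ j ∈ T, i ≠ j → A i * B j ≠ B i * A j) (f : F[X][X]) (hf : f ≠ 0)
    (hv : ∀ i ∈ T, crv (α i) (β i) (A i) (B i) f = 0) : ∑ i ∈ T, B i ≤ f.natDegree := by
  classical
  induction T using Finset.induction_on generalizing f with
  | empty => simp
  | insert i T hi ih =>
    obtain ⟨g, hg⟩ := bin_dvd (hα i (Finset.mem_insert_self i T)) (hβ i (Finset.mem_insert_self i T))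
      (hB i (Finset.mem_insert_self i T)) (hcop i (Finset.mem_insert_self i T)) f
      (hv i (Finset.mem_insert_self i T))
    have hg0 : g ≠ 0 := by
      rintro rfl
      exact hf (by rw [hg, mul_zero])
    have hdeg : f.natDegree = B i + g.natDegree := by
      rw [hg, (bin_monic (α i) (β i) (A i) (hB i (Finset.mem_insert_self i T))).natDegree_mul' hg0,
        bin_natDegree]
    rw [Finset.sum_insert hi, hdeg]
    refine Nat.add_le_add_left (ih (fun j hj => hα j (Finset.mem_insert_of_mem hj))
      (fun j hj => hβ j (Finset.mem_insert_of_mem hj))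
      (fun j hj => hB j (Finset.mem_insert_of_mem hj))
      (fun j hj => hcop j (Finset.mem_insert_of_mem hj))
      (fun j hj k hk => hne j (Finset.mem_insert_of_mem hj) k (Finset.mem_insert_of_mem hk))
      g hg0 fun j hj => ?_) _
    have h1 := hv j (Finset.mem_insert_of_mem hj)
    rw [hg, map_mul] at h1
    refine (mul_eq_zero.1 h1).resolve_left (crv_bin_ne (hα j (Finset.mem_insert_of_mem hj)) ?_)
    refine hne j (Finset.mem_insert_of_mem hj) i (Finset.mem_insert_self i T) ?_
    rintro rfl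
    exact hi hj

end Pool.Agent.W231.V
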