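import Pool.Agent.W231.V.Ht

set_option autoImplicit false

/-!
The truncated counting function along the curves.
-/

namespace Pool.Agent.W231.V

open NumberField IsDedekindDomain Height

variable {K : Type*} [Field K] [NumberField K]

lemma sum_union_le {κ : Type*} (Ks : Finset κ) (u : κ → K) (hu : ∀ k ∈ Ks, u k ≠ 0)
    (T0 T : Finset (HeightOneSpectrum (𝓞 K)))
    (h : ∀ v ∈ T, v ∈ T0 ∨ ∃ k ∈ Ks, fv v (u k) < 1) :
    ∑ v ∈ T, ell v ≤ ∑ v ∈ T0, ell v + ∑ k ∈ Ks, logHeight₁ (u k) := by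
  classical
  have h1 : ∑ v ∈ T, ell v ≤ ∑ v ∈ T, ((if v ∈ T0 then ell v else 0) +
      ∑ k ∈ Ks, if fv v (u k) < 1 then ell v else 0) := by
    refine Finset.sum_le_sum fun v hv => ?_
    have e0 : 0 ≤ if v ∈ T0 then ell v else 0 := by
      split_ifs
      · exact (ell_pos v).le
      · exact le_rfl
    have e1 : ∀ k ∈ Ks, (0 : ℝ) ≤ if fv v (u k) < 1 then ell v else 0 := by
      intro k _
      split_ifs
      · exact (ell_pos v).le
      · exact le_rfl
    rcases h v hv with hv0 | ⟨k, hk, hv1⟩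
    · rw [if_pos hv0]
      have := Finset.sum_nonneg e1
      linarith
    · have := Finset.single_le_sum e1 hk
      rw [if_pos hv1] at this
      linarith
  rw [Finset.sum_add_distrib, Finset.sum_comm] at h1
  refine h1.trans (add_le_add ?_ (Finset.sum_le_sum fun k hk => ?_))
  · rw [← Finset.sum_filter]
    refine Finset.sum_le_sum_of_subset_of_nonneg ?_ fun v _ _ => (ell_pos v).le
    intro v hv
    exact (Finset.mem_filter.1 hv).2
  · rw [← Finset.sum_filter]
    exact weight_le (hu k hk) _ fun v hv => (Finset.mem_filter.1 hv).2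

lemma sq_dvd (t : ℤ) (k : ℕ) : (t - 1) ^ 2 ∣ t ^ k - 1 - k * (t - 1) := by
  induction k with
  | zero => simp
  | succ k ih =>
    obtain ⟨c, hc⟩ := ih
    refine ⟨t * c + k, ?_⟩
    push_cast
    linear_combination t * hc

lemma intF {a b t : ℕ} (ha : 1 ≤ a) (hab : a < b) (hbt : b ≤ t) :
    ∃ g : ℕ, 1 ≤ g ∧ ((b : ℤ) - a) - b * (t : ℤ) ^ a + a * (t : ℤ) ^ b = ((t - 1 : ℕ) : ℤ) ^ 2 * g ∧
      (g : ℝ) ≤ 4 * (a + b) * (t : ℝ) ^ (b - 2) := by
  have ht2 : 2 ≤ t := by omega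
  have hc1 : ((t - 1 : ℕ) : ℤ) = t - 1 := by
    rw [Nat.cast_sub (by omega)]; rfl
  obtain ⟨c1, hc1'⟩ := sq_dvd (t : ℤ) b
  obtain ⟨c2, hc2'⟩ := sq_dvd (t : ℤ) a
  have hF : ((b : ℤ) - a) - b * (t : ℤ) ^ a + a * (t : ℤ) ^ b =
      ((t : ℤ) - 1) ^ 2 * (a * c1 - b * c2) := by
    linear_combination (a : ℤ) * hc1' - (b : ℤ) * hc2'
  have hmono : (b : ℤ) * (t : ℤ) ^ a ≤ a * (t : ℤ) ^ b := by
    have h1 : (b * t ^ a : ℕ) ≤ a * t ^ b := by
      calc b * t ^ a ≤ t * t ^ a := Nat.mul_le_mul_right _ hbt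
        _ = t ^ (a + 1) := by ring
        _ ≤ t ^ b := Nat.pow_le_pow_right (by omega) (by omega)
        _ ≤ a * t ^ b := Nat.le_mul_of_pos_left _ (by omega)
    exact_mod_cast h1
  have hpos : 0 < ((t : ℤ) - 1) ^ 2 * (a * c1 - b * c2) := by
    rw [← hF]
    have : (a : ℤ) < b := by exact_mod_cast hab
    linarith
  have ht1 : (0 : ℤ) < ((t : ℤ) - 1) ^ 2 := by
    have : (1 : ℤ) < t := by exact_mod_cast (by omega : 1 < t)
    have h2 : (0 : ℤ) < (t : ℤ) - 1 := by linarith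
    positivity
  have hg : 0 < (a * c1 - b * c2 : ℤ) := by
    by_contra hcon
    have := mul_nonpos_of_nonneg_of_nonpos ht1.le (not_lt.1 hcon)
    linarith
  obtain ⟨g, hg'⟩ := Int.eq_ofNat_of_zero_le hg.le
  refine ⟨g, ?_, ?_, ?_⟩
  · have : (0 : ℤ) < g := by rw [← hg']; exact hg
    exact_mod_cast this
  · rw [hF, hg', hc1]
  · have h1 : ((b : ℝ) - a) - b * (t : ℝ) ^ a + a * (t : ℝ) ^ b = ((t : ℝ) - 1) ^ 2 * g := by
      have h2 := hF
      rw [hg'] at h2
      exact_mod_cast h2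
    have htR : (2 : ℝ) ≤ t := by exact_mod_cast ht2
    have h3 : ((t : ℝ) - 1) ^ 2 * g ≤ (a + b) * (t : ℝ) ^ b := by
      rw [← h1]
      have h4 : (1 : ℝ) ≤ (t : ℝ) ^ b := one_le_pow₀ (by linarith)
      have h5 : (0 : ℝ) ≤ b * (t : ℝ) ^ a := by positivity
      have h6 : (0 : ℝ) ≤ a := Nat.cast_nonneg _
      have h7 : (0 : ℝ) ≤ b := Nat.cast_nonneg _
      nlinarith
    have h4 : (t : ℝ) ^ b = (t : ℝ) ^ 2 * (t : ℝ) ^ (b - 2) := by
      rw [← pow_add]; congr 1; omega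
    rw [h4] at h3
    have h5 : (t : ℝ) ^ 2 / 4 ≤ ((t : ℝ) - 1) ^ 2 := by nlinarith
    have h6 : (0 : ℝ) ≤ g := Nat.cast_nonneg _
    have h7 : (t : ℝ) ^ 2 / 4 * g ≤ (a + b) * ((t : ℝ) ^ 2 * (t : ℝ) ^ (b - 2)) :=
      (mul_le_mul_of_nonneg_right h5 h6).trans h3
    have h8 : (0 : ℝ) < (t : ℝ) ^ 2 := by positivity
    have h9 : (t : ℝ) ^ 2 * g ≤ (t : ℝ) ^ 2 * (4 * (a + b) * (t : ℝ) ^ (b - 2)) := by
      linarith
    exact le_of_mul_le_mul_left h9 h8

/-- the point of parameter `t` of the curve -/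
def pt {σ : Type*} (A0 A1 A2 : σ → K) (a b t : ℕ) (j : σ) : K :=
  ((b : K) - a) * A0 j - b * A1 j * (t : K) ^ a + a * A2 j * (t : K) ^ b

omit [NumberField K] in
lemma form_pt {σ : Type*} [Fintype σ] (A0 A1 A2 l : σ → K) (a b t : ℕ) :
    ∑ j, l j * pt A0 A1 A2 a b t j = ((b : K) - a) * (∑ j, l j * A0 j) +
      (-b * (∑ j, l j * A1 j)) * (t : K) ^ a + (a * (∑ j, l j * A2 j)) * (t : K) ^ b := by
  unfold pt
  simp only [Finset.mul_sum, Finset.sum_mul, ← Finset.sum_add_distrib]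
  refine Finset.sum_congr rfl fun j _ => ?_
  ring

theorem arith {ι σ : Type*} [Fintype ι] [Fintype σ] [Nonempty σ] (L : ι → σ → K)
    (A0 A1 A2 : σ → K) (I O : Finset ι) (i3 : ι) (hcov : ∀ i, i ∈ I ∨ i = i3 ∨ i ∈ O)
    (hI : ∀ i ∈ I,
      (∑ j, L i j * A0 j ≠ 0 ∧ ∑ j, L i j * A1 j = 0 ∧ ∑ j, L i j * A2 j = 0) ∨
      (∑ j, L i j * A0 j = 0 ∧ ∑ j, L i j * A1 j ≠ 0 ∧ ∑ j, L i j * A2 j = 0) ∨
      (∑ j, L i j * A0 j = 0 ∧ ∑ j, L i j * A1 j = 0 ∧ ∑ j, L i j * A2 j ≠ 0))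
    (h3 : ∑ j, L i3 j * A0 j = 1 ∧ ∑ j, L i3 j * A1 j = 1 ∧ ∑ j, L i3 j * A2 j = 1)
    {a b : ℕ} (ha : 1 ≤ a) (hab : a < b) :
    ∃ C : ℝ, ∀ m t : ℕ, t = 2 ^ m → b ≤ t → (∀ i ∈ O, ∑ j, L i j * pt A0 A1 A2 a b t j ≠ 0) →
      {v : HeightOneSpectrum (𝓞 K) | ∃ i, fv v (∑ j, L i j * pt A0 A1 A2 a b t j) <
        (⨆ j, fv v (L i j)) * ⨆ j, fv v (pt A0 A1 A2 a b t j)}.Finite ∧
      ∀ T : Finset (HeightOneSpectrum (𝓞 K)), (∀ v ∈ T, ∃ i,
        fv v (∑ j, L i j * pt A0 A1 A2 a b t j) <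
          (⨆ j, fv v (L i j)) * ⨆ j, fv v (pt A0 A1 A2 a b t j)) →
        ∑ v ∈ T, ell v ≤ (totalWeight K : ℝ) * Real.log t * (O.card * b + b - 1) + C := by
  classical
  -- the bad primes
  set cs : Finset K := (Finset.univ.image fun p : ι × σ => L p.1 p.2) ∪ Finset.univ.image A0 ∪
    Finset.univ.image A1 ∪ Finset.univ.image A2 ∪
    (Finset.univ.image fun i => ((b : K) - a) * ∑ j, L i j * A0 j) ∪
    (Finset.univ.image fun i => (-b * ∑ j, L i j * A1 j)) ∪
    (Finset.univ.image fun i => (a * ∑ j, L i j * A2 j)) ∪ {2, (b : K) - a} with hcs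
  have hbadfin : {v : HeightOneSpectrum (𝓞 K) | ∃ x ∈ cs, x ≠ 0 ∧ fv v x ≠ 1}.Finite := by
    have : {v : HeightOneSpectrum (𝓞 K) | ∃ x ∈ cs, x ≠ 0 ∧ fv v x ≠ 1} ⊆
        ⋃ x ∈ cs.filter (fun x => x ≠ 0), {v : HeightOneSpectrum (𝓞 K) | fv v x ≠ 1} := by
      rintro v ⟨x, hx, hx0, hx1⟩
      simp only [Set.mem_iUnion, Finset.mem_filter]
      exact ⟨x, ⟨hx, hx0⟩, hx1⟩
    refine Set.Finite.subset (Set.Finite.biUnion (Finset.finite_toSet _) fun x hx => ?_) this
    exact fv_support_finite (Finset.mem_filter.1 (Finset.mem_coe.1 hx)).2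
  set T0 : Finset (HeightOneSpectrum (𝓞 K)) := hbadfin.toFinset with hT0
  have hgood : ∀ v ∉ T0, ∀ x ∈ cs, x ≠ 0 → fv v x = 1 := by
    intro v hv x hx hx0
    by_contra h
    exact hv (hbadfin.mem_toFinset.2 ⟨x, hx, hx0, h⟩)
  have hgood' : ∀ v ∉ T0, ∀ x ∈ cs, fv v x ≤ 1 := by
    intro v hv x hx
    by_cases hx0 : x = 0
    · rw [hx0, map_zero]; exact zero_le_one
    · exact (hgood v hv x hx hx0).le
  have hmem2 : (2 : K) ∈ cs := by
    rw [hcs]
    simp only [Finset.mem_union, Finset.mem_insert]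
    right; left; trivial
  have hmemba : (b : K) - a ∈ cs := by
    rw [hcs]
    simp only [Finset.mem_union, Finset.mem_insert, Finset.mem_singleton]
    right; right; trivial
  have hmemL : ∀ i j, L i j ∈ cs := by
    intro i j
    rw [hcs]
    simp only [Finset.mem_union, Finset.mem_image, Finset.mem_univ, true_and]
    left; left; left; left; left; left; left
    exact ⟨(i, j), rfl⟩
  have hmemA0 : ∀ j, A0 j ∈ cs := by
    intro j
    rw [hcs]
    simp only [Finset.mem_union, Finset.mem_image, Finset.mem_univ, true_and]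
    left; left; left; left; left; left; right
    exact ⟨j, rfl⟩
  have hmemA1 : ∀ j, A1 j ∈ cs := by
    intro j
    rw [hcs]
    simp only [Finset.mem_union, Finset.mem_image, Finset.mem_univ, true_and]
    left; left; left; left; left; right
    exact ⟨j, rfl⟩
  have hmemA2 : ∀ j, A2 j ∈ cs := by
    intro j
    rw [hcs]
    simp only [Finset.mem_union, Finset.mem_image, Finset.mem_univ, true_and]
    left; left; left; left; right
    exact ⟨j, rfl⟩
  have hmem0 : ∀ i, ((b : K) - a) * ∑ j, L i j * A0 j ∈ cs := by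
    intro i
    rw [hcs]
    simp only [Finset.mem_union, Finset.mem_image, Finset.mem_univ, true_and]
    left; left; left; right
    exact ⟨i, rfl⟩
  have hmem1 : ∀ i, (-b * ∑ j, L i j * A1 j) ∈ cs := by
    intro i
    rw [hcs]
    simp only [Finset.mem_union, Finset.mem_image, Finset.mem_univ, true_and]
    left; left; right
    exact ⟨i, rfl⟩
  have hmem2' : ∀ i, (a * ∑ j, L i j * A2 j) ∈ cs := by
    intro i
    rw [hcs]
    simp only [Finset.mem_union, Finset.mem_image, Finset.mem_univ, true_and]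
    left; right
    exact ⟨i, rfl⟩
  have hbaK : (b : K) - a ≠ 0 := by
    intro h
    rw [sub_eq_zero] at h
    have h2 : b = a := by exact_mod_cast h
    omega
  have hbK : -(b : K) ≠ 0 := neg_ne_zero.2 (Nat.cast_ne_zero.2 (by omega))
  have haK : (a : K) ≠ 0 := Nat.cast_ne_zero.2 (by omega)
  choose Ci hCi using fun i : ι => logHeight₁_tri (((b : K) - a) * ∑ j, L i j * A0 j)
    (-b * ∑ j, L i j * A1 j) (a * ∑ j, L i j * A2 j)
  have hdeg : (0 : ℝ) ≤ (totalWeight K : ℝ) := Nat.cast_nonneg _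
  refine ⟨∑ v ∈ T0, ell v + (totalWeight K : ℝ) * Real.log (4 * (a + b)) + ∑ i ∈ O, Ci i,
    fun m t ht hbt hO => ?_⟩
  set x := pt A0 A1 A2 a b t with hx
  obtain ⟨g, hg1, hgeq, hgle⟩ := intF ha hab hbt
  have ht2 : 2 ≤ t := by omega
  -- integrality outside the bad primes
  have hxle : ∀ v ∉ T0, ∀ j, fv v (x j) ≤ 1 := by
    intro v hv j
    have e1 : fv v (((b : K) - a) * A0 j) ≤ 1 := by
      rw [map_mul]
      exact mul_le_one₀ (hgood' v hv _ hmemba) ((fv v).nonneg _) (hgood' v hv _ (hmemA0 j))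
    have e2 : fv v (-(b * A1 j * (t : K) ^ a)) ≤ 1 := by
      rw [map_neg_eq_map, map_mul, map_mul, map_pow]
      exact mul_le_one₀ (mul_le_one₀ (fv_nat v b) ((fv v).nonneg _) (hgood' v hv _ (hmemA1 j)))
        (pow_nonneg ((fv v).nonneg _) _) (pow_le_one₀ ((fv v).nonneg _) (fv_nat v t))
    have e3 : fv v (a * A2 j * (t : K) ^ b) ≤ 1 := by
      rw [map_mul, map_mul, map_pow]
      exact mul_le_one₀ (mul_le_one₀ (fv_nat v a) ((fv v).nonneg _) (hgood' v hv _ (hmemA2 j)))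
        (pow_nonneg ((fv v).nonneg _) _) (pow_le_one₀ ((fv v).nonneg _) (fv_nat v t))
    have e4 : x j = (((b : K) - a) * A0 j + -(b * A1 j * (t : K) ^ a)) + a * A2 j * (t : K) ^ b := by
      rw [hx, pt]; ring
    rw [e4]
    exact (fv_na v _ _).trans (max_le ((fv_na v _ _).trans (max_le e1 e2)) e3)
  have hsup : ∀ v ∉ T0, ∀ i, (⨆ j, fv v (L i j)) * ⨆ j, fv v (x j) ≤ 1 := by
    intro v hv i
    refine mul_le_one₀ (ciSup_le fun j => hgood' v hv _ (hmemL i j))
      (Real.iSup_nonneg fun j => (fv v).nonneg _) (ciSup_le fun j => hxle v hv j)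
  have hft : ∀ v ∉ T0, fv v (t : K) = 1 := by
    intro v hv
    have : (t : K) = 2 ^ m := by rw [ht]; push_cast; rfl
    rw [this, map_pow, hgood v hv 2 hmem2 two_ne_zero, one_pow]
  -- the form `L i3`
  have hL3 : ∑ j, L i3 j * x j = ((t - 1 : ℕ) : K) ^ 2 * (g : K) := by
    rw [hx, form_pt, h3.1, h3.2.1, h3.2.2]
    have := congrArg (Int.cast : ℤ → K) hgeq
    push_cast at this
    rw [← this]
    ring
  -- the key dichotomy
  have key : ∀ v : HeightOneSpectrum (𝓞 K), (∃ i, fv v (∑ j, L i j * x j) <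
      (⨆ j, fv v (L i j)) * ⨆ j, fv v (x j)) → v ∈ T0 ∨ fv v ((t - 1 : ℕ) : K) < 1 ∨
      fv v (g : K) < 1 ∨ ∃ i ∈ O, fv v (∑ j, L i j * x j) < 1 := by
    rintro v ⟨i, hi⟩
    by_cases hv : v ∈ T0
    · exact Or.inl hv
    right
    have h1 : fv v (∑ j, L i j * x j) < 1 := hi.trans_le (hsup v hv i)
    rcases hcov i with hiI | rfl | hiO
    · exfalso
      rw [hx, form_pt] at h1
      rcases hI i hiI with ⟨p0, p1, p2⟩ | ⟨p0, p1, p2⟩ | ⟨p0, p1, p2⟩
      · rw [p1, p2, mul_zero, zero_mul, mul_zero, zero_mul, add_zero, add_zero,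
          hgood v hv _ (hmem0 i) (mul_ne_zero hbaK p0)] at h1
        exact lt_irrefl _ h1
      · rw [p0, p2, mul_zero, mul_zero, zero_mul, zero_add, add_zero, map_mul, map_pow,
          hgood v hv _ (hmem1 i) (mul_ne_zero hbK p1), hft v hv, one_pow, one_mul] at h1
        exact lt_irrefl _ h1
      · rw [p0, p1, mul_zero, mul_zero, zero_mul, zero_add, zero_add, map_mul, map_pow,
          hgood v hv _ (hmem2' i) (mul_ne_zero haK p2), hft v hv, one_pow, one_mul] at h1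
        exact lt_irrefl _ h1
    · rw [hL3, map_mul, map_pow] at h1
      by_contra hcon
      push Not at hcon
      obtain ⟨q1, q2, _⟩ := hcon
      have := one_le_mul_of_one_le_of_one_le (one_le_pow₀ (n := 2) q1) q2
      linarith
    · exact Or.inr (Or.inr ⟨i, hiO, h1⟩)
  have ht1K : ((t - 1 : ℕ) : K) ≠ 0 := Nat.cast_ne_zero.2 (by omega)
  have hgK : (g : K) ≠ 0 := Nat.cast_ne_zero.2 (by omega)
  refine ⟨?_, fun T hT => ?_⟩
  · have hfin := ((T0.finite_toSet.union (fv_support_finite ht1K)).union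
      (fv_support_finite hgK)).union (Set.Finite.biUnion O.finite_toSet
        fun i hi => fv_support_finite (hO i (Finset.mem_coe.1 hi)))
    refine hfin.subset fun v hv => ?_
    rcases key v hv with h | h | h | ⟨i, hi, h⟩
    · exact Or.inl (Or.inl (Or.inl h))
    · exact Or.inl (Or.inl (Or.inr h.ne))
    · exact Or.inl (Or.inr h.ne)
    · right
      simp only [Set.mem_iUnion]
      exact ⟨i, hi, h.ne⟩
  · set T1 := T.filter fun v => fv v ((t - 1 : ℕ) : K) < 1 with hT1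
    set T2 := T.filter fun v => fv v (g : K) < 1 with hT2
    have h1 := sum_union_le O (fun i => ∑ j, L i j * x j) hO (T0 ∪ T1 ∪ T2) T (by
      intro v hv
      rcases key v (hT v hv) with h | h | h | ⟨i, hi, h⟩
      · exact Or.inl (Finset.mem_union_left _ (Finset.mem_union_left _ h))
      · exact Or.inl (Finset.mem_union_left _ (Finset.mem_union_right _
          (Finset.mem_filter.2 ⟨hv, h⟩)))
      · exact Or.inl (Finset.mem_union_right _ (Finset.mem_filter.2 ⟨hv, h⟩))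
      · exact Or.inr ⟨i, hi, h⟩)
    have hun : ∀ P Q : Finset (HeightOneSpectrum (𝓞 K)), ∑ v ∈ P ∪ Q, ell v ≤
        ∑ v ∈ P, ell v + ∑ v ∈ Q, ell v := by
      intro P Q
      rw [← Finset.sum_union_inter]
      have : 0 ≤ ∑ v ∈ P ∩ Q, ell v := Finset.sum_nonneg fun v _ => (ell_pos v).le
      linarith
    have h2 : ∑ v ∈ T1, ell v ≤ (totalWeight K : ℝ) * Real.log t := by
      have e1 := weight_le ht1K T1 fun v hv => (Finset.mem_filter.1 hv).2
      rw [logHeight₁_nat (by omega : 1 ≤ t - 1)] at e1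
      refine e1.trans (mul_le_mul_of_nonneg_left (Real.log_le_log ?_ ?_) hdeg)
      · exact_mod_cast (by omega : 0 < t - 1)
      · exact_mod_cast (by omega : t - 1 ≤ t)
    have h3 : ∑ v ∈ T2, ell v ≤ (totalWeight K : ℝ) * Real.log (4 * (a + b)) +
        (totalWeight K : ℝ) * ((b - 2) * Real.log t) := by
      have e1 := weight_le hgK T2 fun v hv => (Finset.mem_filter.1 hv).2
      rw [logHeight₁_nat hg1] at e1
      have hgR : (0 : ℝ) < g := by exact_mod_cast hg1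
      have htR : (0 : ℝ) < t := by exact_mod_cast (by omega : 0 < t)
      have habR : (0 : ℝ) < 4 * ((a : ℝ) + b) := by
        have : (0 : ℝ) < a := by exact_mod_cast ha
        positivity
      have e2 := Real.log_le_log hgR hgle
      rw [Real.log_mul habR.ne' (by positivity), Real.log_pow,
        Nat.cast_sub (by omega : 2 ≤ b)] at e2
      push_cast at e2
      rw [← mul_add]
      exact e1.trans (mul_le_mul_of_nonneg_left e2 hdeg)
    have h4 : ∑ i ∈ O, logHeight₁ (∑ j, L i j * x j) ≤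
        ∑ i ∈ O, ((totalWeight K : ℝ) * (b * Real.log t) + Ci i) := by
      refine Finset.sum_le_sum fun i _ => ?_
      rw [hx, form_pt]
      exact hCi i a b t hab.le (by omega)
    rw [Finset.sum_add_distrib, Finset.sum_const, nsmul_eq_mul] at h4
    have h5 := hun (T0 ∪ T1) T2
    have h6 := hun T0 T1
    calc ∑ v ∈ T, ell v ≤ _ := h1
      _ ≤ (∑ v ∈ T0, ell v + (totalWeight K : ℝ) * Real.log t +
          ((totalWeight K : ℝ) * Real.log (4 * (a + b)) +
            (totalWeight K : ℝ) * ((b - 2) * Real.log t))) +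
          (O.card * ((totalWeight K : ℝ) * (b * Real.log t)) + ∑ i ∈ O, Ci i) := by
        refine add_le_add ?_ h4
        linarith
      _ = _ := by ring

end Pool.Agent.W231.V
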