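import Pool.Agent.W231.V.Quad
import Pool.Agent.W231.V.Arith

set_option autoImplicit false

/-!
Proximity along the curves, at points with a parameter `t` such that `t` is an `S`-unit and `1 - t`
is a unit.
-/

namespace Pool.Agent.W231.V

open NumberField IsDedekindDomain Height Finset Polynomial

/-- the point of parameter `t` of the curve -/
def ptv {L σ : Type*} [Field L] (A0 A1 A2 : σ → L) (a b : ℕ) (t : L) (j : σ) : L :=
  ((b : L) - a) * A0 j - b * A1 j * t ^ a + a * A2 j * t ^ b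

/-- the polynomial of a linear form along the curve -/
noncomputable def Pol (a b : ℕ) (s0 s1 s2 : ℤ) : ℤ[X] :=
  C (((b : ℤ) - a) * s0) - C (b * s1) * X ^ a + C (a * s2) * X ^ b

lemma Pol_natDegree {a b : ℕ} (hab : a < b) (s0 s1 s2 : ℤ) : (Pol a b s0 s1 s2).natDegree ≤ b := by
  unfold Pol
  refine natDegree_add_le_of_degree_le ((natDegree_sub_le_of_le (m := b) (n := b) ?_ ?_).trans
    (max_self b).le) ?_
  · rw [natDegree_C]; exact Nat.zero_le _
  · exact (natDegree_C_mul_X_pow_le _ _).trans hab.le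
  · exact natDegree_C_mul_X_pow_le _ _

lemma form_ptv {L σ : Type*} [Field L] [Fintype σ] (A0 A1 A2 l : σ → ℤ) (a b : ℕ) (t : L) :
    ∑ j, (l j : L) * ptv (fun j => (A0 j : L)) (fun j => (A1 j : L)) (fun j => (A2 j : L)) a b t j =
      aeval t (Pol a b (∑ j, l j * A0 j) (∑ j, l j * A1 j) (∑ j, l j * A2 j)) := by
  unfold ptv Pol
  simp only [map_add, map_sub, map_mul, map_pow, aeval_X, map_natCast, map_sum, map_intCast,
    Finset.mul_sum, Finset.sum_mul, eq_intCast]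
  rw [← Finset.sum_sub_distrib, ← Finset.sum_add_distrib]
  refine Finset.sum_congr rfl fun j _ => ?_
  ring

lemma sq_dvd' (k : ℕ) : ((X : ℤ[X]) - 1) ^ 2 ∣ X ^ k - 1 - (k : ℤ[X]) * (X - 1) := by
  induction k with
  | zero => simp
  | succ k ih =>
    obtain ⟨c, hc⟩ := ih
    refine ⟨X * c + (k : ℤ[X]), ?_⟩
    push_cast
    linear_combination X * hc

/-- the double root -/
lemma Pol_sq {a b : ℕ} (ha : 1 ≤ a) (hab : a < b) (M : ℤ) (hM : M ≠ 0) : ∃ G : ℤ[X],
    Pol a b M M M = C M * ((1 - X) ^ 2 * G) ∧ G.natDegree ≤ b - 2 := by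
  obtain ⟨c1, h1⟩ := sq_dvd' b
  obtain ⟨c2, h2⟩ := sq_dvd' a
  have hF : Pol a b M M M = C M * ((1 - X) ^ 2 * ((a : ℤ[X]) * c1 - (b : ℤ[X]) * c2)) := by
    unfold Pol
    simp only [C_mul, C_sub, map_natCast]
    linear_combination (C M) * (a : ℤ[X]) * h1 - (C M) * (b : ℤ[X]) * h2
  refine ⟨(a : ℤ[X]) * c1 - (b : ℤ[X]) * c2, hF, ?_⟩
  set G := (a : ℤ[X]) * c1 - (b : ℤ[X]) * c2 with hG
  by_cases hG0 : G = 0
  · rw [hG0, natDegree_zero]; exact Nat.zero_le _
  have hd := Pol_natDegree hab M M M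
  rw [hF] at hd
  have hX : ((1 : ℤ[X]) - X) ^ 2 = (X - C 1) ^ 2 := by rw [C_1]; ring
  rw [hX, natDegree_C_mul hM, ((monic_X_sub_C (1 : ℤ)).pow 2).natDegree_mul' hG0,
    natDegree_pow, natDegree_X_sub_C] at hd
  omega

theorem arith_one {σ : Type*} [Fintype σ] (l : σ → ℤ) (hl : ∃ j, l j ≠ 0)
    (A0 A1 A2 : σ → ℤ) {a b : ℕ} (ha : 1 ≤ a) (hab : a < b) :
    ∃ K : ℝ, ∀ (L : Type) [Field L] [NumberField L] (t : L)
      (U : Finset (HeightOneSpectrum (𝓞 L))), (∀ v, fv v t ≤ 1) → t ≠ 0 →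
      (∀ v, v ∉ U → fv v t = 1) → 1 - t ≠ 0 → (∀ v, fv v (1 - t) = 1) →
      ∑ j, (l j : L) * ptv (fun j => (A0 j : L)) (fun j => (A1 j : L)) (fun j => (A2 j : L))
        a b t j ≠ 0 →
      Lam U (∑ j, (l j : L) * ptv (fun j => (A0 j : L)) (fun j => (A1 j : L))
        (fun j => (A2 j : L)) a b t j) - LamSup U (fun j => (l j : L)) ≤
        (totalWeight L : ℝ) * K + b * logHeight₁ t ∧
      ((∑ j, l j * A0 j ≠ 0 ∧ ∑ j, l j * A1 j = 0 ∧ ∑ j, l j * A2 j = 0) ∨
        (∑ j, l j * A0 j = 0 ∧ ∑ j, l j * A1 j ≠ 0 ∧ ∑ j, l j * A2 j = 0) ∨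
        (∑ j, l j * A0 j = 0 ∧ ∑ j, l j * A1 j = 0 ∧ ∑ j, l j * A2 j ≠ 0) →
        Lam U (∑ j, (l j : L) * ptv (fun j => (A0 j : L)) (fun j => (A1 j : L))
          (fun j => (A2 j : L)) a b t j) - LamSup U (fun j => (l j : L)) ≤
          (totalWeight L : ℝ) * K) ∧
      (∀ M : ℤ, M ≠ 0 → ∑ j, l j * A0 j = M → ∑ j, l j * A1 j = M → ∑ j, l j * A2 j = M →
        Lam U (∑ j, (l j : L) * ptv (fun j => (A0 j : L)) (fun j => (A1 j : L))
          (fun j => (A2 j : L)) a b t j) - LamSup U (fun j => (l j : L)) ≤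
          (totalWeight L : ℝ) * K + (b - 2) * logHeight₁ t) := by
  classical
  obtain ⟨j0, hj0⟩ := hl
  set s0 := ∑ j, l j * A0 j with hs0
  set s1 := ∑ j, l j * A1 j with hs1
  set s2 := ∑ j, l j * A2 j with hs2
  set P := Pol a b s0 s1 s2 with hP
  -- constants
  set K0 : ℝ := Real.log |(l j0 : ℝ)| with hK0
  set K1 : ℝ := Real.log (1 + ∑ i ∈ range (b + 1), |(P.coeff i : ℝ)|) with hK1
  have hK1nn : 0 ≤ K1 := by
    refine Real.log_nonneg ?_
    have : 0 ≤ ∑ i ∈ range (b + 1), |(P.coeff i : ℝ)| := sum_nonneg fun i _ => abs_nonneg _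
    linarith
  have habs : ∀ c : ℤ, 0 ≤ Real.log |(c : ℝ)| := by
    intro c
    by_cases hc : c = 0
    · simp [hc]
    · refine Real.log_nonneg ?_
      have := Int.one_le_abs hc
      exact_mod_cast this
  set K2 : ℝ := Real.log |((((b : ℤ) - a) * s0 : ℤ) : ℝ)| + Real.log |(((-b * s1 : ℤ)) : ℝ)| +
    Real.log |(((a * s2 : ℤ)) : ℝ)| with hK2
  obtain ⟨K3, hK3, hK3'⟩ : ∃ K3 : ℝ, 0 ≤ K3 ∧ ∀ (L : Type) [Field L] [NumberField L] (t : L)
      (U : Finset (HeightOneSpectrum (𝓞 L))), (∀ v, fv v t ≤ 1) → t ≠ 0 →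
      1 - t ≠ 0 → (∀ v, fv v (1 - t) = 1) → ∀ M : ℤ, M ≠ 0 → s0 = M → s1 = M → s2 = M →
      aeval t P ≠ 0 → Lam U (aeval t P) ≤ (totalWeight L : ℝ) * K3 + (b - 2) * logHeight₁ t := by
    by_cases hc : s0 ≠ 0 ∧ s1 = s0 ∧ s2 = s0
    · obtain ⟨hc0, hc1, hc2⟩ := hc
      obtain ⟨G, hG, hGdeg⟩ := Pol_sq ha hab s0 hc0
      refine ⟨Real.log |(s0 : ℝ)| + Real.log (1 + ∑ i ∈ range (b - 2 + 1), |(G.coeff i : ℝ)|),
        add_nonneg (habs s0) (Real.log_nonneg ?_), ?_⟩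
      · have : 0 ≤ ∑ i ∈ range (b - 2 + 1), |(G.coeff i : ℝ)| := sum_nonneg fun i _ => abs_nonneg _
        linarith
      · intro L _ _ t U ht ht0 h1t hunit M hM e0 e1 e2 hne
        have hPG : aeval t P = (s0 : L) * ((1 - t) ^ 2 * aeval t G) := by
          rw [hP, hc1, hc2, hG]
          simp
        have hGne : aeval t G ≠ 0 := by
          intro h
          rw [hPG, h, mul_zero, mul_zero] at hne
          exact hne rfl
        have hs0L : (s0 : L) ≠ 0 := Int.cast_ne_zero.2 hc0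
        rw [hPG, Lam_mul U hs0L (mul_ne_zero (pow_ne_zero _ h1t) hGne),
          Lam_mul U (pow_ne_zero _ h1t) hGne, Lam_pow, Lam_eq_zero U h1t fun v _ => hunit v]
        have g1 := Lam_le_height U hs0L
        rw [logHeight₁_int hc0] at g1
        have g2 := Lam_poly U ht G hGdeg hGne
        rw [Nat.cast_sub (by omega : 2 ≤ b)] at g2
        push_cast at g2 ⊢
        linarith
    · refine ⟨0, le_rfl, fun L _ _ t U _ _ _ _ M hM e0 e1 e2 _ => ?_⟩
      exact absurd ⟨by rw [e0]; exact hM, by rw [e1, e0], by rw [e2, e0]⟩ hc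
  have hK2nn : 0 ≤ K2 := add_nonneg (add_nonneg (habs _) (habs _)) (habs _)
  refine ⟨K0 + K1 + K2 + K3, fun L _ _ t U ht ht0 hU h1t hunit hne => ?_⟩
  have htw : (0 : ℝ) ≤ (totalWeight L : ℝ) := Nat.cast_nonneg _
  have hsup : -((totalWeight L : ℝ) * K0) ≤ LamSup U (fun j => (l j : L)) := by
    have g1 := LamSup_ge U (fun j => (l j : L)) j0 (Int.cast_ne_zero.2 hj0)
    have g2 := Lam_ge_height U (y := (l j0 : L)) (Int.cast_ne_zero.2 hj0)
    rw [logHeight₁_int hj0] at g2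
    linarith
  rw [form_ptv] at hne
  rw [form_ptv]
  have m1 := mul_nonneg htw hK1nn
  have m2 := mul_nonneg htw hK2nn
  have m3 := mul_nonneg htw hK3
  refine ⟨?_, ?_, ?_⟩
  · have g1 := Lam_poly U ht P (Pol_natDegree hab s0 s1 s2) hne
    rw [← hK1] at g1
    linarith
  · intro hcase
    have hLt : Lam U t = 0 := Lam_eq_zero U ht0 hU
    have hba : ((b : ℤ) - a) ≠ 0 := by omega
    have hb : (-(b : ℤ)) ≠ 0 := by omega
    have ha' : (a : ℤ) ≠ 0 := by omega
    have hmono : ∀ (c : ℤ) (e : ℕ), c ≠ 0 → aeval t P = (c : L) * t ^ e →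
        Real.log |(c : ℝ)| ≤ K2 → Lam U (aeval t P) ≤ (totalWeight L : ℝ) * K2 := by
      intro c e hc hPe hcK
      have hcL : (c : L) ≠ 0 := Int.cast_ne_zero.2 hc
      rw [hPe, Lam_mul U hcL (pow_ne_zero _ ht0), Lam_pow, hLt, mul_zero, add_zero]
      have g1 := Lam_le_height U hcL
      rw [logHeight₁_int hc] at g1
      exact g1.trans (mul_le_mul_of_nonneg_left hcK htw)
    have hfinal : Lam U (aeval t P) ≤ (totalWeight L : ℝ) * K2 := by
      rcases hcase with ⟨p0, p1, p2⟩ | ⟨p0, p1, p2⟩ | ⟨p0, p1, p2⟩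
      · refine hmono (((b : ℤ) - a) * s0) 0 (mul_ne_zero hba p0) ?_ ?_
        · rw [hP, p1, p2]; simp [Pol]
        · have := habs (-b * s1); have := habs (a * s2); linarith
      · refine hmono (-b * s1) a (mul_ne_zero hb p1) ?_ ?_
        · rw [hP, p0, p2]; simp [Pol]
        · have := habs (((b : ℤ) - a) * s0); have := habs (a * s2); linarith
      · refine hmono (a * s2) b (mul_ne_zero ha' p2) ?_ ?_
        · rw [hP, p0, p1]; simp [Pol]
        · have := habs (((b : ℤ) - a) * s0); have := habs (-b * s1); linarith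
    linarith
  · intro M hM e0 e1 e2
    have g1 := hK3' L t U ht ht0 h1t hunit M hM e0 e1 e2 hne
    linarith

theorem arith2 {ι σ : Type*} [Fintype ι] [Fintype σ] (H : ι → σ → ℤ) (hH : ∀ i, ∃ j, H i j ≠ 0)
    (A0 A1 A2 : σ → ℤ) (I O : Finset ι) (i0 i2 i3 : ι) (M : ℤ) (hM : M ≠ 0)
    (hcov : ∀ i, i ∈ I ∨ i = i3 ∨ i ∈ O)
    (hI : ∀ i ∈ I,
      (∑ j, H i j * A0 j ≠ 0 ∧ ∑ j, H i j * A1 j = 0 ∧ ∑ j, H i j * A2 j = 0) ∨
      (∑ j, H i j * A0 j = 0 ∧ ∑ j, H i j * A1 j ≠ 0 ∧ ∑ j, H i j * A2 j = 0) ∨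
      (∑ j, H i j * A0 j = 0 ∧ ∑ j, H i j * A1 j = 0 ∧ ∑ j, H i j * A2 j ≠ 0))
    (h3 : ∑ j, H i3 j * A0 j = M ∧ ∑ j, H i3 j * A1 j = M ∧ ∑ j, H i3 j * A2 j = M)
    (h0 : ∑ j, H i0 j * A0 j ≠ 0 ∧ ∑ j, H i0 j * A1 j = 0 ∧ ∑ j, H i0 j * A2 j = 0)
    (h2 : ∑ j, H i2 j * A0 j = 0 ∧ ∑ j, H i2 j * A1 j = 0 ∧ ∑ j, H i2 j * A2 j ≠ 0)
    {a b : ℕ} (ha : 1 ≤ a) (hab : a < b) :
    ∃ K : ℝ, ∀ (L : Type) [Field L] [NumberField L] (t : L)
      (U : Finset (HeightOneSpectrum (𝓞 L))), (∀ v, fv v t ≤ 1) → t ≠ 0 →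
      (∀ v, v ∉ U → fv v t = 1) → 1 - t ≠ 0 → (∀ v, fv v (1 - t) = 1) →
      (∀ i, ∑ j, (H i j : L) * ptv (fun j => (A0 j : L)) (fun j => (A1 j : L))
        (fun j => (A2 j : L)) a b t j ≠ 0) →
      b * logHeight₁ t ≤ logHeight (ptv (fun j => (A0 j : L)) (fun j => (A1 j : L))
        (fun j => (A2 j : L)) a b t) + (totalWeight L : ℝ) * K ∧
      (Fintype.card ι : ℝ) * logHeight (ptv (fun j => (A0 j : L)) (fun j => (A1 j : L))
        (fun j => (A2 j : L)) a b t) - ((b - 2) + O.card * b) * logHeight₁ t -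
          (totalWeight L : ℝ) * K ≤
        ∑ i, (LamSup U (fun j => (H i j : L)) + LamSup U (ptv (fun j => (A0 j : L))
          (fun j => (A1 j : L)) (fun j => (A2 j : L)) a b t) -
          Lam U (∑ j, (H i j : L) * ptv (fun j => (A0 j : L)) (fun j => (A1 j : L))
            (fun j => (A2 j : L)) a b t j)) := by
  classical
  choose K hK using fun i => arith_one (H i) (hH i) A0 A1 A2 ha hab
  have hbaZ : ((b : ℤ) - a) ≠ 0 := by omega
  have haZ : (a : ℤ) ≠ 0 := by omega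
  obtain ⟨K', hK'⟩ := logHeight_ge' (H i0) (H i2) (((b : ℤ) - a) * ∑ j, H i0 j * A0 j)
    (a * ∑ j, H i2 j * A2 j) (mul_ne_zero hbaZ h0.1) (mul_ne_zero haZ h2.2.2)
  refine ⟨|K'| + ∑ i, |K i|, fun L _ _ t U ht ht0 hU h1t hunit hne => ?_⟩
  set x := ptv (fun j => (A0 j : L)) (fun j => (A1 j : L)) (fun j => (A2 j : L)) a b t with hx
  have htw : (0 : ℝ) ≤ (totalWeight L : ℝ) := Nat.cast_nonneg _
  have hht : 0 ≤ logHeight₁ t := zero_le_logHeight₁ t
  have hsK : 0 ≤ ∑ i, |K i| := sum_nonneg fun i _ => abs_nonneg _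
  have hσ : Nonempty σ := by
    obtain ⟨j, _⟩ := hH i0
    exact ⟨j⟩
  have hx0 : x ≠ 0 := by
    intro h
    apply hne i0
    rw [h]
    simp
  have hxint : ∀ v j, fv v (x j) ≤ 1 := by
    intro v j
    have e1 : fv v (((b : L) - a) * A0 j) ≤ 1 := by
      have : ((b : L) - a) * A0 j = (((b : ℤ) - a) * A0 j : ℤ) := by push_cast; ring
      rw [this]
      exact fv_int_le v _
    have e2 : fv v (-(b * A1 j * t ^ a)) ≤ 1 := by
      have : (b : L) * A1 j * t ^ a = ((b * A1 j : ℤ) : L) * t ^ a := by push_cast; ring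
      rw [map_neg_eq_map, this, map_mul, map_pow]
      exact mul_le_one₀ (fv_int_le v _) (pow_nonneg ((fv v).nonneg _) _)
        (pow_le_one₀ ((fv v).nonneg _) (ht v))
    have e3 : fv v (a * A2 j * t ^ b) ≤ 1 := by
      have : (a : L) * A2 j * t ^ b = ((a * A2 j : ℤ) : L) * t ^ b := by push_cast; ring
      rw [this, map_mul, map_pow]
      exact mul_le_one₀ (fv_int_le v _) (pow_nonneg ((fv v).nonneg _) _)
        (pow_le_one₀ ((fv v).nonneg _) (ht v))
    have e4 : x j = (((b : L) - a) * A0 j + -(b * A1 j * t ^ a)) + a * A2 j * t ^ b := by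
      rw [hx, ptv]; ring
    rw [e4]
    exact (fv_na v _ _).trans (max_le ((fv_na v _ _).trans (max_le e1 e2)) e3)
  have hhx := logHeight_le_LamSup U x hx0 hxint
  refine ⟨?_, ?_⟩
  · have g1 := hK' L x b t (by
      rw [hx, form_ptv, h0.2.1, h0.2.2]
      simp [Pol]) (by
      rw [hx, form_ptv, h2.1, h2.2.1]
      simp [Pol])
    have g2 : (totalWeight L : ℝ) * K' ≤ (totalWeight L : ℝ) * (|K'| + ∑ i, |K i|) :=
      mul_le_mul_of_nonneg_left (by linarith [le_abs_self K']) htw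
    linarith
  · -- one form at a time
    have hone : ∀ i, logHeight x - (if i ∈ O then (b : ℝ) else if i = i3 then (b : ℝ) - 2 else 0) *
        logHeight₁ t - (totalWeight L : ℝ) * |K i| ≤
        LamSup U (fun j => (H i j : L)) + LamSup U x - Lam U (∑ j, (H i j : L) * x j) := by
      intro i
      obtain ⟨k1, k2, k3⟩ := hK i L t U ht ht0 hU h1t hunit (hne i)
      have g1 : (totalWeight L : ℝ) * K i ≤ (totalWeight L : ℝ) * |K i| :=
        mul_le_mul_of_nonneg_left (le_abs_self _) htw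
      split_ifs with hO hi3
      · linarith
      · subst hi3
        have := k3 M hM h3.1 h3.2.1 h3.2.2
        linarith
      · have hiI : i ∈ I := by
          rcases hcov i with h | h | h
          · exact h
          · exact absurd h hi3
          · exact absurd h hO
        have := k2 (hI i hiI)
        linarith
    have hsum := Finset.sum_le_sum fun i (_ : i ∈ (Finset.univ : Finset ι)) => hone i
    rw [Finset.sum_sub_distrib, Finset.sum_sub_distrib, Finset.sum_const, Finset.card_univ,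
      nsmul_eq_mul, ← Finset.sum_mul, ← Finset.mul_sum] at hsum
    have hf : ∑ i, (if i ∈ O then (b : ℝ) else if i = i3 then (b : ℝ) - 2 else 0) ≤
        (b - 2) + O.card * b := by
      have hb2 : (0 : ℝ) ≤ (b : ℝ) - 2 := by
        have : (2 : ℝ) ≤ b := by exact_mod_cast (by omega : 2 ≤ b)
        linarith
      calc ∑ i, (if i ∈ O then (b : ℝ) else if i = i3 then (b : ℝ) - 2 else 0)
          ≤ ∑ i, ((if i ∈ O then (b : ℝ) else 0) + (if i = i3 then (b : ℝ) - 2 else 0)) := by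
            refine Finset.sum_le_sum fun i _ => ?_
            split_ifs <;> linarith
        _ = (b - 2) + O.card * b := by
            rw [Finset.sum_add_distrib, Finset.sum_ite_mem, Finset.univ_inter, Finset.sum_const,
              nsmul_eq_mul, Finset.sum_ite_eq' Finset.univ i3, if_pos (Finset.mem_univ i3)]
            ring
    have g3 := mul_le_mul_of_nonneg_right hf hht
    have g4 : (totalWeight L : ℝ) * ∑ i, |K i| ≤ (totalWeight L : ℝ) * (|K'| + ∑ i, |K i|) :=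
      mul_le_mul_of_nonneg_left (by linarith [abs_nonneg K']) htw
    linarith

end Pool.Agent.W231.V
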