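import Pool.Agent.W231.V.Geo

set_option autoImplicit false

/-!
The main estimate.
-/

namespace Pool.Agent.W231.V

open NumberField IsDedekindDomain Height Finset

variable {K : Type*} [Field K] [NumberField K]

/-- a plane in general position -/
lemma exists_plane {n : ℕ} (hn : 2 ≤ n) {ι : Type*} [Fintype ι] (L : ι → Fin (n + 1) → K)
    (hgp : ∀ I : Finset ι, I.card = n + 1 → LinearIndependent K (fun i : I => L i))
    (hr : n + 2 ≤ Fintype.card ι) {Ω : Type*} [Field Ω] [Algebra K Ω]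
    (G : MvPolynomial (Fin (n + 1)) Ω) (hG : G ≠ 0) :
    ∃ (A0 A1 A2 : Fin (n + 1) → K) (s y1 y2 : K) (I O : Finset ι) (i0 i2 i3 : ι),
      s ≠ 0 ∧ MvPolynomial.eval (fun j => algebraMap K Ω (s * A0 j + y1 * A1 j + y2 * A2 j)) G ≠ 0 ∧
      (∀ i, i ∈ I ∨ i = i3 ∨ i ∈ O) ∧
      (∀ i ∈ I,
        (∑ j, L i j * A0 j ≠ 0 ∧ ∑ j, L i j * A1 j = 0 ∧ ∑ j, L i j * A2 j = 0) ∨
        (∑ j, L i j * A0 j = 0 ∧ ∑ j, L i j * A1 j ≠ 0 ∧ ∑ j, L i j * A2 j = 0) ∨
        (∑ j, L i j * A0 j = 0 ∧ ∑ j, L i j * A1 j = 0 ∧ ∑ j, L i j * A2 j ≠ 0)) ∧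
      (∑ j, L i3 j * A0 j = 1 ∧ ∑ j, L i3 j * A1 j = 1 ∧ ∑ j, L i3 j * A2 j = 1) ∧
      (∑ j, L i0 j * A0 j ≠ 0 ∧ ∑ j, L i0 j * A1 j = 0 ∧ ∑ j, L i0 j * A2 j = 0) ∧
      (∑ j, L i2 j * A0 j = 0 ∧ ∑ j, L i2 j * A1 j = 0 ∧ ∑ j, L i2 j * A2 j ≠ 0) ∧
      (∀ i ∈ O, ∑ j, L i j * A1 j ≠ 0) ∧ O.card + (n + 2) = Fintype.card ι := by
  classical
  obtain ⟨e⟩ : Nonempty (Fin (n + 2) ↪ ι) :=
    Function.Embedding.nonempty_of_card_le (by rw [Fintype.card_fin]; exact hr)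
  set e' : Fin (n + 1) ↪ ι := Fin.castSuccEmb.trans e with he'
  obtain ⟨f, hf, hf'⟩ := exists_dual L hgp e'
  have hlast : ∀ k, e' k ≠ e (Fin.last (n + 1)) := by
    intro k h
    have h1 := e.injective h
    exact (Fin.castSucc_lt_last k).ne h1
  have hlam := hf' _ hlast
  set i3 := e (Fin.last (n + 1)) with hi3
  set lam : Fin (n + 1) → K := fun k => ∑ j, L i3 j * f k j with hlamdef
  let k0 : Fin (n + 1) := ⟨0, by omega⟩
  let k1 : Fin (n + 1) := ⟨1, by omega⟩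
  let k2 : Fin (n + 1) := ⟨2, by omega⟩
  have h01 : k0 ≠ k1 := by simp [k0, k1]
  have h02 : k0 ≠ k2 := by simp [k0, k2]
  have h12 : k1 ≠ k2 := by simp [k1, k2]
  -- the linear form `s`
  set cs : Fin (n + 1) → K := fun j => L i3 j - lam k1 * L (e' k1) j - lam k2 * L (e' k2) j with hcs
  have hcsum : ∀ x : Fin (n + 1) → K, ∑ j, cs j * x j = ∑ j, L i3 j * x j -
      lam k1 * ∑ j, L (e' k1) j * x j - lam k2 * ∑ j, L (e' k2) j * x j := by
    intro x
    rw [Finset.mul_sum, Finset.mul_sum, ← Finset.sum_sub_distrib, ← Finset.sum_sub_distrib]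
    refine Finset.sum_congr rfl fun j _ => ?_
    simp only [hcs]
    ring
  obtain ⟨p, hp, hpk⟩ := exists_point G hG (univ : Finset (Option (Fin (n + 1))))
    (fun o => o.elim cs fun k => L (e' k)) (by
      intro o _
      rcases o with _ | k
      · refine ⟨f k0, ?_⟩
        simp only [Option.elim_none]
        rw [hcsum, hf, hf, if_neg h01.symm, if_neg h02.symm, mul_zero, mul_zero, sub_zero, sub_zero]
        exact hlam k0
      · refine ⟨f k, ?_⟩
        simp only [Option.elim_some]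
        rw [hf, if_pos rfl]
        exact one_ne_zero)
  set y : Fin (n + 1) → K := fun k => ∑ j, L (e' k) j * p j with hy
  have hyk : ∀ k, y k ≠ 0 := fun k => hpk (some k) (mem_univ _)
  set s : K := ∑ j, cs j * p j with hs
  have hs0 : s ≠ 0 := hpk none (mem_univ _)
  set A0 : Fin (n + 1) → K := fun j => s⁻¹ * (p j - y k1 * f k1 j - y k2 * f k2 j) with hA0
  set A1 : Fin (n + 1) → K := fun j => (lam k1)⁻¹ * f k1 j with hA1
  set A2 : Fin (n + 1) → K := fun j => (lam k2)⁻¹ * f k2 j with hA2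
  have d0 : ∀ l : Fin (n + 1) → K, ∑ j, l j * A0 j = s⁻¹ * (∑ j, l j * p j -
      y k1 * ∑ j, l j * f k1 j - y k2 * ∑ j, l j * f k2 j) := by
    intro l
    rw [Finset.mul_sum (f := fun j => l j * f k1 j), Finset.mul_sum (f := fun j => l j * f k2 j),
      ← Finset.sum_sub_distrib, ← Finset.sum_sub_distrib, Finset.mul_sum]
    refine Finset.sum_congr rfl fun j _ => ?_
    simp only [hA0]
    ring
  have d1 : ∀ l : Fin (n + 1) → K, ∑ j, l j * A1 j = (lam k1)⁻¹ * ∑ j, l j * f k1 j := by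
    intro l
    rw [Finset.mul_sum]
    refine Finset.sum_congr rfl fun j _ => ?_
    simp only [hA1]
    ring
  have d2 : ∀ l : Fin (n + 1) → K, ∑ j, l j * A2 j = (lam k2)⁻¹ * ∑ j, l j * f k2 j := by
    intro l
    rw [Finset.mul_sum]
    refine Finset.sum_congr rfl fun j _ => ?_
    simp only [hA2]
    ring
  have hk : ∀ k, k ≠ k1 → k ≠ k2 → (∑ j, L (e' k) j * A0 j ≠ 0 ∧ ∑ j, L (e' k) j * A1 j = 0 ∧
      ∑ j, L (e' k) j * A2 j = 0) := by
    intro k hk1 hk2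
    rw [d0, d1, d2, hf, hf, if_neg hk1, if_neg hk2]
    refine ⟨?_, by simp, by simp⟩
    simp only [mul_zero, sub_zero]
    exact mul_ne_zero (inv_ne_zero hs0) (hyk k)
  have hk2' : (∑ j, L (e' k2) j * A0 j = 0 ∧ ∑ j, L (e' k2) j * A1 j = 0 ∧
      ∑ j, L (e' k2) j * A2 j ≠ 0) := by
    rw [d0, d1, d2, hf, hf, if_neg h12.symm, if_pos rfl]
    refine ⟨?_, by simp, ?_⟩
    · simp [hy]
    · rw [mul_one]
      exact inv_ne_zero (hlam k2)
  have hk1' : (∑ j, L (e' k1) j * A0 j = 0 ∧ ∑ j, L (e' k1) j * A1 j ≠ 0 ∧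
      ∑ j, L (e' k1) j * A2 j = 0) := by
    rw [d0, d1, d2, hf, hf, if_neg h12, if_pos rfl]
    refine ⟨?_, ?_, by simp⟩
    · simp [hy]
    · rw [mul_one]
      exact inv_ne_zero (hlam k1)
  refine ⟨A0, A1, A2, s, y k1 * lam k1, y k2 * lam k2, univ.map e', univ \ univ.map e, e' k0,
    e' k2, i3, hs0, ?_, ?_, ?_, ?_, hk k0 h01 h02, hk2', ?_, ?_⟩
  · have : (fun j => algebraMap K Ω (s * A0 j + y k1 * lam k1 * A1 j + y k2 * lam k2 * A2 j)) =
        fun j => algebraMap K Ω (p j) := by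
      funext j
      congr 1
      simp only [hA0, hA1, hA2]
      have g1 : lam k1 * (lam k1)⁻¹ = 1 := mul_inv_cancel₀ (hlam k1)
      have g2 : lam k2 * (lam k2)⁻¹ = 1 := mul_inv_cancel₀ (hlam k2)
      have g3 : s * s⁻¹ = 1 := mul_inv_cancel₀ hs0
      linear_combination (p j - y k1 * f k1 j - y k2 * f k2 j) * g3 + y k1 * f k1 j * g1 +
        y k2 * f k2 j * g2
    rw [this]
    exact hp
  · intro i
    by_cases h1 : i ∈ univ.map e'
    · exact Or.inl h1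
    right
    by_cases h2 : i = i3
    · exact Or.inl h2
    right
    rw [mem_sdiff]
    refine ⟨mem_univ _, fun h3 => ?_⟩
    obtain ⟨k, _, hk⟩ := mem_map.1 h3
    rcases Fin.eq_castSucc_or_eq_last k with ⟨k', rfl⟩ | rfl
    · exact h1 (mem_map.2 ⟨k', mem_univ _, hk⟩)
    · exact h2 hk.symm
  · intro i hi
    obtain ⟨k, _, rfl⟩ := mem_map.1 hi
    by_cases h1 : k = k1
    · subst h1
      exact Or.inr (Or.inl hk1')
    · by_cases h2 : k = k2
      · subst h2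
        exact Or.inr (Or.inr hk2')
      · exact Or.inl (hk k h1 h2)
  · refine ⟨?_, ?_, ?_⟩
    · rw [d0]
      have h1 : s = ∑ j, L i3 j * p j - y k1 * ∑ j, L i3 j * f k1 j - y k2 * ∑ j, L i3 j * f k2 j := by
        rw [hs, hcsum]
        simp only [hy, hlamdef]
        ring
      rw [← h1]
      exact inv_mul_cancel₀ hs0
    · rw [d1]
      exact inv_mul_cancel₀ (hlam k1)
    · rw [d2]
      exact inv_mul_cancel₀ (hlam k2)
  · intro i hi
    rw [mem_sdiff] at hi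
    rw [d1]
    refine mul_ne_zero (inv_ne_zero (hlam k1)) (hf' i (fun k hk => ?_) k1)
    exact hi.2 (mem_map.2 ⟨k.castSucc, mem_univ _, hk⟩)
  · rw [card_sdiff_of_subset (subset_univ _), card_map, card_univ, card_univ, Fintype.card_fin]
    omega

end Pool.Agent.W231.V
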