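import Pool.Agent.W231.V.Arith
import Pool.Agent.W231.V.Alg2

set_option autoImplicit false

/-!
Planes in general position with respect to hyperplanes in general position.
-/

namespace Pool.Agent.W231.V

open Finset

variable {K : Type*} [Field K]

/-- `n + 1` hyperplanes in general position have no common point -/
lemma gp_zero {n : ℕ} {ι : Type*} (L : ι → Fin (n + 1) → K)
    (hgp : ∀ I : Finset ι, I.card = n + 1 → LinearIndependent K (fun i : I => L i))
    (I : Finset ι) (hI : I.card = n + 1) (x : Fin (n + 1) → K)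
    (hx : ∀ i ∈ I, ∑ j, L i j * x j = 0) : x = 0 := by
  classical
  have h1 := (hgp I hI).span_eq_top_of_card_eq_finrank' (by simp [hI])
  set φ : (Fin (n + 1) → K) →ₗ[K] K :=
    { toFun := fun y => ∑ j, y j * x j
      map_add' := fun y z => by simp [add_mul, Finset.sum_add_distrib]
      map_smul' := fun c y => by simp [mul_assoc, Finset.mul_sum] } with hφ
  have h2 : (⊤ : Submodule K (Fin (n + 1) → K)) ≤ LinearMap.ker φ := by
    rw [← h1, Submodule.span_le]
    rintro _ ⟨i, rfl⟩
    exact hx i.1 i.2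
  funext j
  have h3 : Pi.single j (1 : K) ∈ LinearMap.ker φ := h2 Submodule.mem_top
  rw [LinearMap.mem_ker] at h3
  have h4 : φ (Pi.single j 1) = x j := by
    simp [hφ, Pi.single_apply]
  rw [← h4, h3]
  rfl

/-- dual vectors -/
lemma exists_dual {n : ℕ} {ι : Type*} (L : ι → Fin (n + 1) → K)
    (hgp : ∀ I : Finset ι, I.card = n + 1 → LinearIndependent K (fun i : I => L i))
    (e : Fin (n + 1) ↪ ι) : ∃ f : Fin (n + 1) → Fin (n + 1) → K,
      (∀ k l, ∑ j, L (e k) j * f l j = if k = l then 1 else 0) ∧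
      ∀ i, (∀ k, e k ≠ i) → ∀ l, ∑ j, L i j * f l j ≠ 0 := by
  classical
  set M : Matrix (Fin (n + 1)) (Fin (n + 1)) K := fun k j => L (e k) j with hM
  have hinj : Function.Injective M.mulVecLin := by
    rw [injective_iff_map_eq_zero]
    intro x hx
    refine gp_zero L hgp (univ.map e) (by simp) x fun i hi => ?_
    obtain ⟨k, _, rfl⟩ := mem_map.1 hi
    exact congrFun hx k
  have hsurj := LinearMap.injective_iff_surjective.1 hinj
  choose f hf using fun l : Fin (n + 1) => hsurj (Pi.single l 1)
  have hdual : ∀ k l, ∑ j, L (e k) j * f l j = if k = l then 1 else 0 := by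
    intro k l
    have := congrFun (hf l) k
    rw [Pi.single_apply] at this
    exact this
  refine ⟨f, hdual, fun i hi l h0 => ?_⟩
  have hz : f l = 0 := by
    refine gp_zero L hgp (insert i ((univ.erase l).map e)) ?_ (f l) ?_
    · rw [card_insert_of_notMem, card_map, card_erase_of_mem (mem_univ l), card_univ,
        Fintype.card_fin]
      · rfl
      · intro h
        obtain ⟨k, _, hk⟩ := mem_map.1 h
        exact hi k hk
    · intro i' hi'
      rcases mem_insert.1 hi' with rfl | hi'
      · exact h0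
      · obtain ⟨k, hk, rfl⟩ := mem_map.1 hi'
        rw [hdual, if_neg (mem_erase.1 hk).1]
  have h1 := hdual l l
  rw [hz, if_pos rfl] at h1
  simp at h1

variable {Ω : Type*} [Field Ω] [Algebra K Ω]

/-- a linear form as a polynomial -/
noncomputable def lf {σ : Type*} [Fintype σ] (Ω : Type*) [Field Ω] [Algebra K Ω] (c : σ → K) :
    MvPolynomial σ Ω :=
  ∑ j, MvPolynomial.C (algebraMap K Ω (c j)) * MvPolynomial.X j

lemma lf_eval {σ : Type*} [Fintype σ] (c x : σ → K) :
    MvPolynomial.eval (fun j => algebraMap K Ω (x j)) (lf Ω c) =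
      algebraMap K Ω (∑ j, c j * x j) := by
  simp [lf]

lemma lf_ne {σ : Type*} [Fintype σ] (c x : σ → K) (h : ∑ j, c j * x j ≠ 0) : lf Ω c ≠ 0 := by
  intro h0
  have h1 := lf_eval (Ω := Ω) c x
  rw [h0, map_zero] at h1
  exact h ((map_eq_zero _).1 h1.symm)

/-- a nonzero polynomial does not vanish at some point of `K ^ n` off finitely many given
hyperplanes -/
lemma exists_point [Infinite K] {σ : Type*} [Fintype σ] (G : MvPolynomial σ Ω) (hG : G ≠ 0)
    {κ : Type*} (s : Finset κ) (c : κ → σ → K) (hc : ∀ k ∈ s, ∃ x : σ → K, ∑ j, c k j * x j ≠ 0) :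
    ∃ p : σ → K, MvPolynomial.eval (fun j => algebraMap K Ω (p j)) G ≠ 0 ∧
      ∀ k ∈ s, ∑ j, c k j * p j ≠ 0 := by
  classical
  set H := G * ∏ k ∈ s, lf Ω (c k) with hH
  have hH0 : H ≠ 0 := by
    refine mul_ne_zero hG (Finset.prod_ne_zero_iff.2 fun k hk => ?_)
    obtain ⟨x, hx⟩ := hc k hk
    exact lf_ne _ x hx
  by_contra hcon
  push Not at hcon
  apply hH0
  refine MvPolynomial.funext_set (fun _ => Set.range (algebraMap K Ω)) (fun _ =>
    Set.infinite_range_of_injective (algebraMap K Ω).injective) fun x hx => ?_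
  choose p hp using fun j => hx j (Set.mem_univ j)
  have hxp : x = fun j => algebraMap K Ω (p j) := funext fun j => (hp j).symm
  rw [map_zero, hH, map_mul, hxp]
  by_cases h1 : MvPolynomial.eval (fun j => algebraMap K Ω (p j)) G = 0
  · rw [h1, zero_mul]
  · obtain ⟨k, hk, hk0⟩ := hcon p h1
    rw [map_prod, Finset.prod_eq_zero hk, mul_zero]
    rw [lf_eval, hk0, map_zero]

end Pool.Agent.W231.V
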