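import Mathlib

set_option autoImplicit false

/-!
Heights over a number field: the primes dividing a number, integers, trinomials at integers.
-/

namespace Pool.Agent.W231.V

open NumberField IsDedekindDomain Height

variable {K : Type*} [Field K] [NumberField K]

/-- `log N v` -/
noncomputable def ell (v : HeightOneSpectrum (𝓞 K)) : ℝ :=
  Real.log (Ideal.absNorm v.asIdeal : ℝ)

lemma one_lt_norm (v : HeightOneSpectrum (𝓞 K)) : (1 : ℝ) < (Ideal.absNorm v.asIdeal : ℝ) := by
  exact_mod_cast NumberField.HeightOneSpectrum.one_lt_absNorm v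

lemma ell_pos (v : HeightOneSpectrum (𝓞 K)) : 0 < ell v := Real.log_pos (one_lt_norm v)

/-- the absolute value at the prime `v` -/
noncomputable def fv (v : HeightOneSpectrum (𝓞 K)) : AbsoluteValue K ℝ := (FinitePlace.mk v).1

lemma fv_apply (v : HeightOneSpectrum (𝓞 K)) (x : K) : fv v x = FinitePlace.mk v x := rfl

lemma fv_na (v : HeightOneSpectrum (𝓞 K)) (a b : K) : fv v (a + b) ≤ max (fv v a) (fv v b) :=
  FinitePlace.add_le (FinitePlace.mk v) a b

lemma fv_nat (v : HeightOneSpectrum (𝓞 K)) (n : ℕ) : fv v (n : K) ≤ 1 := by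
  have h := NumberField.HeightOneSpectrum.adicAbv_natCast_le_one K v n
  have h2 : fv v (n : K) = ‖FinitePlace.embedding v (n : K)‖ := rfl
  rw [h2, FinitePlace.norm_embedding]
  exact h

lemma fv_support_finite {x : K} (hx : x ≠ 0) :
    {v : HeightOneSpectrum (𝓞 K) | fv v x ≠ 1}.Finite := by
  have h := FinitePlace.hasFiniteMulSupport (K := K) hx
  have h2 : {v : HeightOneSpectrum (𝓞 K) | fv v x ≠ 1} =
      (fun v => FinitePlace.mk v) ⁻¹' (Function.mulSupport (fun w : FinitePlace K => w x)) := by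
    ext v
    simp [Function.mulSupport, fv_apply]
  rw [h2]
  exact Set.Finite.preimage (fun a _ b _ hab => FinitePlace.mk_eq_iff.mp hab) h

/-- values of the `v`-adic absolute value are integral powers of the norm -/
lemma fv_zpow (v : HeightOneSpectrum (𝓞 K)) {x : K} (hx : x ≠ 0) :
    ∃ n : ℤ, fv v x = (Ideal.absNorm v.asIdeal : ℝ) ^ n := by
  have h1 : fv v x = _ := NumberField.FinitePlace.norm_embedding' (v := v) (x := x)
  have hx' : v.valuation K x ≠ 0 := (Valuation.ne_zero_iff _).mpr hx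
  rw [WithZeroMulInt.toNNReal_neg_apply _ hx'] at h1
  refine ⟨Multiplicative.toAdd (WithZero.unzero hx'), h1.trans ?_⟩
  push_cast
  rfl

/-- the non-archimedean part of the height -/
lemma sum_posLog_le {u : K} (hu : u ≠ 0) (T : Finset (HeightOneSpectrum (𝓞 K))) :
    ∑ v ∈ T, Real.posLog (fv v u) ≤ logHeight₁ u := by
  classical
  have hpos : ∀ y : ℝ, 0 ≤ Real.posLog y := fun y => Real.posLog_nonneg
  rw [NumberField.logHeight₁_eq]
  have h1 : ∑ᶠ w : FinitePlace K, Real.posLog (w u) =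
      ∑ᶠ v : HeightOneSpectrum (𝓞 K), Real.posLog (fv v u) := by
    rw [← finsum_comp_equiv (FinitePlace.equivHeightOneSpectrum (K := K)).symm]
    rfl
  have hfin := fv_support_finite hu
  have h2 : ∑ᶠ v : HeightOneSpectrum (𝓞 K), Real.posLog (fv v u) =
      ∑ v ∈ hfin.toFinset ∪ T, Real.posLog (fv v u) := by
    refine finsum_eq_sum_of_support_subset _ ?_
    intro v hv
    rw [Finset.coe_union, Set.Finite.coe_toFinset]
    left
    simp only [Function.mem_support, Set.mem_ofPred_eq] at hv ⊢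
    intro h
    rw [h] at hv
    exact hv Real.posLog_one
  have h3 : ∑ v ∈ T, Real.posLog (fv v u) ≤ ∑ v ∈ hfin.toFinset ∪ T, Real.posLog (fv v u) :=
    Finset.sum_le_sum_of_subset_of_nonneg Finset.subset_union_right fun v _ _ => hpos _
  have h4 : 0 ≤ ∑ w : InfinitePlace K, (w.mult : ℝ) * Real.posLog (w u) :=
    Finset.sum_nonneg fun w _ => mul_nonneg (Nat.cast_nonneg _) (hpos _)
  rw [h1, h2]
  linarith

/-- the weight of a set of primes where `u` is small -/
lemma weight_le {u : K} (hu : u ≠ 0) (T : Finset (HeightOneSpectrum (𝓞 K)))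
    (hT : ∀ v ∈ T, fv v u < 1) : ∑ v ∈ T, ell v ≤ logHeight₁ u := by
  rw [← logHeight₁_inv]
  refine le_trans (Finset.sum_le_sum fun v hv => ?_) (sum_posLog_le (inv_ne_zero hu) T)
  obtain ⟨n, hn⟩ := fv_zpow v hu
  have h1 := hT v hv
  have h2 := one_lt_norm v
  have hn0 : n < 0 := by
    by_contra h
    rw [hn] at h1
    have := one_le_zpow₀ h2.le (not_lt.1 h)
    linarith
  have hlog : Real.log (fv v u⁻¹) = (-n : ℤ) * ell v := by
    rw [map_inv₀, hn, ← zpow_neg, Real.log_zpow]; rfl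
  have h3 : Real.log (fv v u⁻¹) ≤ Real.posLog (fv v u⁻¹) := le_max_right _ _
  refine le_trans ?_ h3
  rw [hlog]
  have h4 : (1 : ℝ) ≤ ((-n : ℤ) : ℝ) := by exact_mod_cast (by omega : 1 ≤ -n)
  nlinarith [ell_pos v]

lemma sum_mult : ∑ w : InfinitePlace K, (w.mult : ℝ) = (totalWeight K : ℝ) := by
  rw [totalWeight_eq_sum_mult]
  push_cast
  rfl

lemma mulHeight_le_of {ι : Type*} [Finite ι] [Nonempty ι] {x : ι → K} (hx : x ≠ 0) {M : ℝ}
    (hM : 0 ≤ M) (h1 : ∀ (w : InfinitePlace K) i, w (x i) ≤ M)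
    (h2 : ∀ (v : HeightOneSpectrum (𝓞 K)) i, fv v (x i) ≤ 1) :
    mulHeight x ≤ M ^ totalWeight K := by
  rw [NumberField.mulHeight_eq hx]
  have h3 : ∏ v : InfinitePlace K, (⨆ i, v (x i)) ^ v.mult ≤ M ^ totalWeight K := by
    rw [totalWeight_eq_sum_mult, ← Finset.prod_pow_eq_pow_sum]
    refine Finset.prod_le_prod (fun w _ => ?_) fun w _ => ?_
    · exact pow_nonneg (Real.iSup_nonneg fun i => apply_nonneg w _) _
    · exact pow_le_pow_left₀ (Real.iSup_nonneg fun i => apply_nonneg w _)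
        (ciSup_le fun i => h1 w i) _
  have h4 : 0 ≤ (∏ᶠ v : FinitePlace K, ⨆ i, v (x i)) ∧
      (∏ᶠ v : FinitePlace K, ⨆ i, v (x i)) ≤ 1 := by
    refine finprod_induction (fun y : ℝ => 0 ≤ y ∧ y ≤ 1) ⟨zero_le_one, le_rfl⟩ ?_ ?_
    · rintro y z ⟨hy, hy'⟩ ⟨hz, hz'⟩
      exact ⟨mul_nonneg hy hz, mul_le_one₀ hy' hz hz'⟩
    · intro v
      refine ⟨Real.iSup_nonneg fun i => apply_nonneg v _, ciSup_le fun i => ?_⟩
      have := h2 v.maximalIdeal i
      rwa [fv_apply, FinitePlace.mk_maximalIdeal] at this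
  calc _ ≤ M ^ totalWeight K * 1 := mul_le_mul h3 h4.2 h4.1 (by positivity)
    _ = _ := mul_one _

lemma logHeight_le_of {ι : Type*} [Finite ι] [Nonempty ι] {x : ι → K} (hx : x ≠ 0) {M : ℝ}
    (hM : 0 < M) (h1 : ∀ (w : InfinitePlace K) i, w (x i) ≤ M)
    (h2 : ∀ (v : HeightOneSpectrum (𝓞 K)) i, fv v (x i) ≤ 1) :
    logHeight x ≤ (totalWeight K : ℝ) * Real.log M := by
  rw [logHeight_eq_log_mulHeight, ← Real.log_pow]
  exact Real.log_le_log (mulHeight_pos x) (mulHeight_le_of hx hM.le h1 h2)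

lemma logHeight₁_nat {N : ℕ} (hN : 1 ≤ N) : logHeight₁ (N : K) = (totalWeight K : ℝ) * Real.log N := by
  rw [NumberField.logHeight₁_eq]
  have h1 : ∀ w : InfinitePlace K, (w.mult : ℝ) * Real.posLog (w (N : K)) =
      w.mult * Real.log N := by
    intro w
    have e : w (N : K) = N := by simp
    rw [e, Real.posLog_eq_log_max_one (Nat.cast_nonneg N), max_eq_right]
    exact_mod_cast hN
  have h2 : ∑ᶠ v : FinitePlace K, Real.posLog (v (N : K)) = 0 := by
    refine finsum_eq_zero_of_forall_eq_zero fun v => ?_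
    have h3 : v (N : K) ≤ 1 := by
      have := fv_nat (K := K) v.maximalIdeal N
      rwa [fv_apply, FinitePlace.mk_maximalIdeal] at this
    rw [Real.posLog_eq_zero_iff, abs_of_nonneg (apply_nonneg v _)]
    exact h3
  rw [h2, add_zero, Finset.sum_congr rfl fun w _ => h1 w, ← Finset.sum_mul, sum_mult]

/-- The height of a linear combination of `1, t^a, t^b`. -/
lemma logHeight₁_tri (e0 e1 e2 : K) : ∃ C : ℝ, ∀ a b t : ℕ, a ≤ b → 1 ≤ t →
    logHeight₁ (e0 + e1 * (t : K) ^ a + e2 * (t : K) ^ b) ≤ (totalWeight K : ℝ) * (b * Real.log t) + C := by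
  set A : Fin 2 × Fin 3 → K := fun p => ![![e0, e1, e2], ![1, 0, 0]] p.1 p.2 with hA
  refine ⟨totalWeight K * Real.log (Nat.card (Fin 3)) + logHeight A, fun a b t hab ht => ?_⟩
  have h1 := logHeight_linearMap_apply_le A ![(1 : K), (t : K) ^ a, (t : K) ^ b]
  have h2 : (fun j => ∑ i, A (j, i) * ![(1 : K), (t : K) ^ a, (t : K) ^ b] i) =
      ![e0 + e1 * (t : K) ^ a + e2 * (t : K) ^ b, 1] := by
    funext j
    fin_cases j <;> simp [hA, Fin.sum_univ_three]
  rw [h2, ← logHeight₁_eq_logHeight] at h1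
  have ht' : (1 : ℝ) ≤ t := by exact_mod_cast ht
  have h3 : logHeight ![(1 : K), (t : K) ^ a, (t : K) ^ b] ≤ (totalWeight K : ℝ) * Real.log ((t : ℝ) ^ b) := by
    refine logHeight_le_of ?_ (by positivity) ?_ ?_
    · intro h
      have := congrFun h 0
      simp at this
    · intro w i
      fin_cases i
      · simpa using one_le_pow₀ ht'
      · simpa using pow_le_pow_right₀ ht' hab
      · simp
    · intro v i
      fin_cases i
      · simp
      · have := pow_le_one₀ (n := a) ((fv v).nonneg _) (fv_nat v t)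
        simpa using this
      · have := pow_le_one₀ (n := b) ((fv v).nonneg _) (fv_nat v t)
        simpa using this
  rw [Real.log_pow] at h3
  linarith

/-- The height of a vector on which two linear forms take the values `1` and `t ^ b`. -/
lemma logHeight_ge {ι : Type*} [Fintype ι] (l l' : ι → K) : ∃ C : ℝ, ∀ (x : ι → K) (b t : ℕ),
    1 ≤ t → ∑ j, l j * x j = 1 → ∑ j, l' j * x j = (t : K) ^ b →
    (totalWeight K : ℝ) * (b * Real.log t) ≤ logHeight x + C := by
  set A : Fin 2 × ι → K := fun p => ![l', l] p.1 p.2 with hA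
  refine ⟨totalWeight K * Real.log (Nat.card ι) + logHeight A, fun x b t ht h0 h1 => ?_⟩
  have h2 := logHeight_linearMap_apply_le A x
  have h3 : (fun j => ∑ i, A (j, i) * x i) = ![(t : K) ^ b, 1] := by
    funext j
    fin_cases j
    · simpa [hA] using h1
    · simpa [hA] using h0
  rw [h3, ← logHeight₁_eq_logHeight, logHeight₁_pow, logHeight₁_nat ht] at h2
  linarith

end Pool.Agent.W231.V
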