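import Pool.Agent.W231.V.Quad

set_option autoImplicit false

/-!
The quadratic fields generated by a unit of trace `u` and norm `1`.
-/

namespace Pool.Agent.W231.V

open NumberField IsDedekindDomain Height Polynomial

/-- the discriminant of a number field is at most that of a basis of algebraic integers -/
lemma discr_le {L : Type*} [Field L] [NumberField L] {κ : Type*} [Fintype κ] [DecidableEq κ]
    (c : Module.Basis κ ℚ L) (hc : ∀ k, IsIntegral ℤ (c k)) :
    |((NumberField.discr L : ℤ) : ℚ)| ≤ |Algebra.discr ℚ c| := by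
  classical
  have h : ∀ i j, IsIntegral ℤ ((integralBasis L).toMatrix c i j) := by
    intro i j
    obtain ⟨y, hy⟩ := (IsIntegralClosure.isIntegral_iff (A := 𝓞 L)).1 (hc j)
    rw [Module.Basis.toMatrix_apply, ← hy]
    have := integralBasis_repr_apply L y i
    rw [this]
    exact isIntegral_algebraMap
  have e : Algebra.discr ℚ c = (((integralBasis L).reindex
      ((integralBasis L).indexEquiv c)).toMatrix c).det ^ 2 *
      Algebra.discr ℚ (integralBasis L) := by
    conv_lhs =>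
      rw [← ((integralBasis L).reindex ((integralBasis L).indexEquiv c)).toMatrix_map_vecMul c,
        Algebra.discr_of_matrix_vecMul, Module.Basis.coe_reindex, Algebra.discr_reindex]
  have hint : IsIntegral ℤ (((integralBasis L).reindex
      ((integralBasis L).indexEquiv c)).toMatrix c).det := by
    refine IsIntegral.det fun i j => ?_
    have := h (((integralBasis L).indexEquiv c).symm i) j
    rw [Module.Basis.toMatrix_apply] at this ⊢
    simpa using this
  obtain ⟨r, hr⟩ := IsIntegrallyClosed.isIntegral_iff.1 hint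
  have hne : Algebra.discr ℚ c ≠ 0 := Algebra.discr_not_zero_of_basis ℚ c
  have hr0 : r ≠ 0 := by
    rintro rfl
    rw [map_zero] at hr
    rw [e, ← hr] at hne
    simp at hne
  rw [e, ← NumberField.coe_discr, ← hr, abs_mul, abs_pow]
  have h1 : (1 : ℚ) ≤ |algebraMap ℤ ℚ r| := by
    have := Int.one_le_abs hr0
    simp only [eq_intCast]
    exact_mod_cast this
  have h2 : (1 : ℚ) ≤ |algebraMap ℤ ℚ r| ^ 2 := one_le_pow₀ h1
  nlinarith [abs_nonneg ((NumberField.discr L : ℤ) : ℚ)]

lemma no_root (u : ℕ) (hu : 3 ≤ u) (x : ℚ) : x ^ 2 - u * x + 1 ≠ 0 := by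
  intro h
  have h1 : (((u : ℤ) ^ 2 - 4 : ℤ) : ℚ) = (2 * x - u) * (2 * x - u) := by
    push_cast
    linear_combination (-4) * h
  have h2 : IsSquare (((u : ℤ) ^ 2 - 4 : ℤ) : ℚ) := ⟨_, h1⟩
  rw [Rat.isSquare_intCast_iff] at h2
  obtain ⟨k, hk⟩ := h2
  have hu' : (3 : ℤ) ≤ u := by exact_mod_cast hu
  have h3 : |k| < u := by
    by_contra hcon
    push Not at hcon
    have : (u : ℤ) ^ 2 ≤ |k| ^ 2 := pow_le_pow_left₀ (by omega) hcon 2
    rw [sq_abs] at this
    nlinarith
  have h4 : |k| ≤ u - 1 := by omega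
  have h5 : |k| ^ 2 ≤ ((u : ℤ) - 1) ^ 2 := pow_le_pow_left₀ (abs_nonneg _) h4 2
  rw [sq_abs] at h5
  nlinarith

/-- the discriminant of a quadratic field containing a unit of trace `u` -/
lemma discr_quad {L : Type*} [Field L] [NumberField L] (u : ℕ) (pb : PowerBasis ℚ L)
    (hdim : pb.dim = 2) (hfin : Module.finrank ℚ L = 2) (hu : 3 ≤ u)
    (hmin : minpoly ℚ pb.gen = X ^ 2 - C (u : ℚ) * X + 1)
    (hint : IsIntegral ℤ pb.gen) : |((NumberField.discr L : ℤ) : ℝ)| ≤ (u : ℝ) ^ 2 := by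
  have h1 := discr_le pb.basis (fun k => by
    rw [pb.basis_eq_pow]
    exact hint.pow _)
  have h2 := Algebra.discr_powerBasis_eq_norm ℚ pb
  rw [hmin, hfin] at h2
  set s : L := aeval pb.gen (derivative (X ^ 2 - C (u : ℚ) * X + 1 : ℚ[X])) with hs
  have hrel : pb.gen ^ 2 - u * pb.gen + 1 = 0 := by
    have := minpoly.aeval ℚ pb.gen
    rw [hmin] at this
    simpa using this
  have hs2 : s ^ 2 = algebraMap ℚ L ((u : ℚ) ^ 2 - 4) := by
    have e1 : s = 2 * pb.gen - u := by
      rw [hs]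
      simp
      left
      norm_num
    rw [e1, map_sub, map_pow, map_natCast]
    have : algebraMap ℚ L 4 = 4 := by simp
    rw [this]
    linear_combination 4 * hrel
  have hn : |Algebra.norm ℚ s| = (u : ℚ) ^ 2 - 4 := by
    have h3 := congrArg (Algebra.norm ℚ) hs2
    rw [map_pow, Algebra.norm_algebraMap, hfin] at h3
    have h4 : (0 : ℚ) ≤ (u : ℚ) ^ 2 - 4 := by
      have : (3 : ℚ) ≤ u := by exact_mod_cast hu
      nlinarith
    have h5 : |Algebra.norm ℚ s| ^ 2 = ((u : ℚ) ^ 2 - 4) ^ 2 := by rw [sq_abs, h3]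
    exact (pow_left_inj₀ (abs_nonneg _) h4 two_ne_zero).1 h5
  rw [h2, abs_mul, abs_pow, abs_neg, abs_one, one_pow, one_mul, hn] at h1
  have h6 : |((NumberField.discr L : ℤ) : ℝ)| = ((|((NumberField.discr L : ℤ) : ℚ)| : ℚ) : ℝ) := by
    push_cast; rfl
  rw [h6]
  have h7 : ((|((NumberField.discr L : ℤ) : ℚ)| : ℚ) : ℝ) ≤ (((u : ℚ) ^ 2 - 4 : ℚ) : ℝ) := by
    exact_mod_cast h1
  push_cast at h7 ⊢
  linarith

theorem exists_quad (u : ℕ) (hu : 3 ≤ u) : ∃ (L : Type) (_ : Field L) (_ : NumberField L) (η : L),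
    Module.finrank ℚ L = 2 ∧ η ^ 2 = u * η - 1 ∧ |((NumberField.discr L : ℤ) : ℝ)| ≤ (u : ℝ) ^ 2 ∧
    IsIntegral ℤ η ∧ η ∉ Set.range (algebraMap ℚ L) := by
  set f : ℚ[X] := X ^ 2 - C (u : ℚ) * X + 1 with hf
  have hdeg : f.natDegree = 2 := by
    rw [hf]
    compute_degree!
  have hmonic : f.Monic := by
    rw [hf]
    monicity!
  have hirr : Irreducible f := by
    rw [hmonic.irreducible_iff_roots_eq_zero_of_degree_le_three (by omega) (by omega)]
    rw [Multiset.eq_zero_iff_forall_notMem]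
    intro x hx
    rw [mem_roots hmonic.ne_zero, IsRoot.def, hf] at hx
    simp only [eval_add, eval_sub, eval_pow, eval_X, eval_mul, eval_C, eval_one] at hx
    exact no_root u hu x hx
  haveI : Fact (Irreducible f) := ⟨hirr⟩
  let pb := AdjoinRoot.powerBasis hmonic.ne_zero
  haveI : FiniteDimensional ℚ (AdjoinRoot f) := pb.finite
  haveI : CharZero (AdjoinRoot f) :=
    charZero_of_injective_algebraMap (algebraMap ℚ (AdjoinRoot f)).injective
  haveI hnf : NumberField (AdjoinRoot f) := {}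
  set η : AdjoinRoot f := AdjoinRoot.root f with hη
  have hrel : η ^ 2 = u * η - 1 := by
    have h0 : aeval η f = 0 := AdjoinRoot.eval₂_root f
    have h1 : aeval η (X ^ 2 - C (u : ℚ) * X + 1 : ℚ[X]) = 0 := h0
    simp only [map_add, map_sub, map_pow, aeval_X, map_mul, aeval_C, map_one, map_natCast] at h1
    linear_combination h1
  have hint : IsIntegral ℤ η := by
    refine ⟨X ^ 2 - C (u : ℤ) * X + 1, by monicity!, ?_⟩
    simp only [eval₂_add, eval₂_sub, eval₂_pow, eval₂_X, eval₂_mul, eval₂_C, eval₂_one]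
    rw [hrel]
    simp
  have hgen : pb.gen = η := AdjoinRoot.powerBasis_gen _
  have hdim : pb.dim = 2 := by
    rw [AdjoinRoot.powerBasis_dim, hdeg]
  have hfin : Module.finrank ℚ (AdjoinRoot f) = 2 := by
    rw [pb.finrank, hdim]
  have hmin : minpoly ℚ pb.gen = f := AdjoinRoot.minpoly_powerBasis_gen_of_monic hmonic
  refine ⟨AdjoinRoot f, inferInstance, hnf, η, hfin, hrel, ?_, hint, ?_⟩
  · exact discr_quad u pb hdim hfin hu hmin (by rw [hgen]; exact hint)
  · rintro ⟨x, hx⟩
    apply no_root u hu x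
    have h1 := hrel
    rw [← hx] at h1
    have h2 : algebraMap ℚ (AdjoinRoot f) (x ^ 2 - u * x + 1) = 0 := by
      rw [map_add, map_sub, map_pow, map_mul, map_natCast, map_one, h1]
      ring
    exact (map_eq_zero _).1 h2

end Pool.Agent.W231.V
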