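import Pool.Agent.W231.V.Arith2
import Pool.Agent.W231.V.QField
import Pool.Agent.W231.V.Main

set_option autoImplicit false

/-!
Quadratic points close to hyperplanes.
-/

namespace Pool.Agent.W231.V

open NumberField IsDedekindDomain Height Finset Polynomial

section facts

variable {L : Type} [Field L] [NumberField L] {u : ℕ} {η : L}

lemma fv_isIntegral {y : L} (hy : IsIntegral ℤ y) (v : HeightOneSpectrum (𝓞 L)) :
    fv v y ≤ 1 := by
  obtain ⟨z, rfl⟩ := (IsIntegralClosure.isIntegral_iff (A := 𝓞 L)).1 hy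
  have h2 : fv v (algebraMap (𝓞 L) L z) = ‖FinitePlace.embedding v (algebraMap (𝓞 L) L z)‖ := rfl
  rw [h2]
  exact FinitePlace.norm_le_one L v z

lemma eta_ne (h : η ^ 2 = u * η - 1) : η ≠ 0 := by
  rintro rfl
  norm_num at h

lemma fv_eta (h : η ^ 2 = u * η - 1) (hint : IsIntegral ℤ η) (v : HeightOneSpectrum (𝓞 L)) :
    fv v η = 1 := by
  have h1 : η * (u - η) = 1 := by linear_combination -h
  have h2 := congrArg (fv v) h1
  rw [map_mul, map_one] at h2
  have h3 := fv_isIntegral hint v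
  have h5 : IsIntegral ℤ ((u : L) - η) := by
    have h6 : IsIntegral ℤ (algebraMap ℤ L (u : ℤ)) := isIntegral_algebraMap
    have h7 : algebraMap ℤ L (u : ℤ) = (u : L) := by simp
    rw [h7] at h6
    exact h6.sub hint
  have h4 : fv v (u - η) ≤ 1 := fv_isIntegral h5 v
  refine le_antisymm h3 ?_
  by_contra hc
  push Not at hc
  have := (fv v).nonneg (u - η)
  nlinarith [(fv v).nonneg η]

lemma Lam_eta (h : η ^ 2 = u * η - 1) (hint : IsIntegral ℤ η)
    (U : Finset (HeightOneSpectrum (𝓞 L))) : Lam U η = 0 :=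
  Lam_eq_zero U (eta_ne h) fun v _ => fv_eta h hint v

lemma height_t (h : η ^ 2 = u * η - 1) (hint : IsIntegral ℤ η) (hu : 1 ≤ u) :
    (totalWeight L : ℝ) * Real.log u ≤ logHeight₁ ((u : L) * η) := by
  have huL : (u : L) ≠ 0 := Nat.cast_ne_zero.2 (by omega)
  have h1 := Lam_le_height (∅ : Finset (HeightOneSpectrum (𝓞 L))) (mul_ne_zero huL (eta_ne h))
  rw [Lam_mul _ huL (eta_ne h), Lam_eta h hint, add_zero] at h1
  refine le_trans (le_of_eq ?_) h1
  unfold Lam
  rw [sum_empty, add_zero, ← sum_mult, sum_mul]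
  refine sum_congr rfl fun w _ => ?_
  congr 2
  simp

/-- powers of `η` are not rational -/
lemma pow_not_rat (h : η ^ 2 = u * η - 1) (hint : IsIntegral ℤ η) (hu : 3 ≤ u) {b : ℕ}
    (hb : 1 ≤ b) (r : ℚ) : η ^ b ≠ algebraMap ℚ L r := by
  intro hr
  have hw : ∀ w : InfinitePlace L, w η ^ b = |(r : ℝ)| := by
    intro w
    rw [← map_pow, hr]
    simp only [eq_ratCast, InfinitePlace.map_ratCast]
    rw [← Rat.norm_cast_real, Real.norm_eq_abs]
  have h1 := Lam_eta h hint ∅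
  unfold Lam at h1
  rw [sum_empty, add_zero] at h1
  have h2 : ∀ w : InfinitePlace L, (b : ℝ) * ((w.mult : ℝ) * Real.log (w η)) =
      w.mult * Real.log |(r : ℝ)| := by
    intro w
    rw [← hw w, Real.log_pow]
    ring
  have h3 := congrArg (fun y => (b : ℝ) * y) h1
  simp only [mul_sum, mul_zero] at h3
  rw [sum_congr rfl fun w _ => h2 w, ← sum_mul, sum_mult] at h3
  have htw : (0 : ℝ) < (totalWeight L : ℝ) := by exact_mod_cast totalWeight_pos L
  have h4 : Real.log |(r : ℝ)| = 0 := (mul_eq_zero.1 h3).resolve_left htw.ne'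
  have hη : η ≠ 0 := eta_ne h
  obtain ⟨w⟩ : Nonempty (InfinitePlace L) := inferInstance
  have hpos : 0 < w η := w.pos_iff.2 hη
  have h5 : w η = 1 := by
    have h6 : Real.log (w η ^ b) = 0 := by rw [hw, h4]
    rw [Real.log_pow] at h6
    have h7 : Real.log (w η) = 0 := (mul_eq_zero.1 h6).resolve_left
      (Nat.cast_ne_zero.2 (by omega))
    exact Real.eq_one_of_pos_of_log_eq_zero hpos h7
  have h8 : (u : L) * η = η ^ 2 + 1 := by linear_combination -h
  have h9 := congrArg w h8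
  rw [map_mul, h5, mul_one] at h9
  have h10 : w (η ^ 2 + 1) ≤ w (η ^ 2) + w 1 := w.1.add_le _ _
  rw [map_pow, h5, map_one, one_pow, ← h9] at h10
  have h11 : w (u : L) = u := by simp
  rw [h11] at h10
  have : (3 : ℝ) ≤ u := by exact_mod_cast hu
  linarith

end facts

/-- a nonzero rational polynomial vanishes at `u η` for finitely many `u` only -/
lemma eventually_ne_quad (R : ℚ[X]) (hR : R ≠ 0) : ∃ u0 : ℕ, ∀ u : ℕ, u0 ≤ u →
    ∀ (L : Type) [Field L] [NumberField L] (η : L), η ^ 2 = u * η - 1 →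
      aeval ((u : L) * η) R ≠ 0 := by
  have hfin : {u : ℕ | ∃ z ∈ (R.map (algebraMap ℚ ℂ)).roots.toFinset,
      z ^ 2 = (u : ℂ) ^ 2 * (z - 1)}.Finite := by
    have : {u : ℕ | ∃ z ∈ (R.map (algebraMap ℚ ℂ)).roots.toFinset,
      z ^ 2 = (u : ℂ) ^ 2 * (z - 1)} ⊆ ⋃ z ∈ (R.map (algebraMap ℚ ℂ)).roots.toFinset,
        {u : ℕ | z ^ 2 = (u : ℂ) ^ 2 * (z - 1)} := by
      rintro u ⟨z, hz, hu⟩
      simp only [Set.mem_iUnion]
      exact ⟨z, hz, hu⟩
    refine (Set.Finite.biUnion (Finset.finite_toSet _) fun z _ => ?_).subset this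
    refine Set.Subsingleton.finite fun u hu u' hu' => ?_
    have hz1 : z - 1 ≠ 0 := by
      intro h
      have h1 : z = 1 := sub_eq_zero.1 h
      have h2 : z ^ 2 = (u : ℂ) ^ 2 * (z - 1) := hu
      rw [h, mul_zero, h1] at h2
      norm_num at h2
    have h3 : (u : ℂ) ^ 2 * (z - 1) = (u' : ℂ) ^ 2 * (z - 1) := by
      have h1 : z ^ 2 = (u : ℂ) ^ 2 * (z - 1) := hu
      have h2 : z ^ 2 = (u' : ℂ) ^ 2 * (z - 1) := hu'
      rw [← h1, ← h2]
    have h4 := mul_right_cancel₀ hz1 h3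
    have h5 : u ^ 2 = u' ^ 2 := by exact_mod_cast h4
    exact Nat.pow_left_injective (n := 2) two_ne_zero h5
  obtain ⟨u0, hu0⟩ := hfin.bddAbove
  refine ⟨u0 + 1, fun u hu L _ _ η h h0 => ?_⟩
  obtain ⟨φ⟩ : Nonempty (L →+* ℂ) := inferInstance
  have h1 : u ∈ {u : ℕ | ∃ z ∈ (R.map (algebraMap ℚ ℂ)).roots.toFinset,
      z ^ 2 = (u : ℂ) ^ 2 * (z - 1)} := by
    refine ⟨φ ((u : L) * η), ?_, ?_⟩
    · rw [Multiset.mem_toFinset, mem_roots (Polynomial.map_ne_zero hR), IsRoot.def, eval_map]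
      have h2 := congrArg φ h0
      rw [map_zero, aeval_def, Polynomial.hom_eval₂] at h2
      rwa [RingHom.ext_rat (φ.comp (algebraMap ℚ L)) (algebraMap ℚ ℂ)] at h2
    · have h3 : ((u : L) * η) ^ 2 = (u : L) ^ 2 * ((u : L) * η - 1) := by
        linear_combination (u : L) ^ 2 * h
      have h4 := congrArg φ h3
      simpa using h4
  have := hu0 h1
  omega

end Pool.Agent.W231.V
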